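import Pool.Agent.H99.PC.Poly

/-!
# Trial function of the Hartree ground state: integer polynomials
-/

set_option autoImplicit false

namespace Pool.Agent.H97.TR

open Pool.Agent.H99.PC

/-- derivative -/
def der : List ℤ → List ℤ
  | [] => []
  | _ :: l => add l (0 :: der l)

/-- all coefficients vanish -/
def allZ : List ℤ → Bool
  | [] => true
  | c :: l => decide (c = 0) && allZ l

/-- equality as polynomials -/
def eqv (a b : List ℤ) : Bool := allZ (add a (smul (-1) b))

/-- sum of the absolute values of the coefficients -/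
def nrm : List ℤ → ℤ
  | [] => 0
  | c :: l => |c| + nrm l

theorem ev_allZ {l : List ℤ} (h : allZ l = true) (x : ℝ) : ev l x = 0 := by
  induction l with
  | nil => rfl
  | cons c l ih =>
    simp only [allZ, Bool.and_eq_true, decide_eq_true_eq] at h
    simp [ev, h.1, ih h.2]

theorem ev_eqv {a b : List ℤ} (h : eqv a b = true) (x : ℝ) : ev a x = ev b x := by
  have h1 := ev_allZ h x
  rw [ev_add, ev_smul] at h1
  push_cast at h1
  linarith

theorem hasDerivAt_ev (l : List ℤ) (x : ℝ) : HasDerivAt (ev l) (ev (der l) x) x := by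
  induction l with
  | nil =>
    have : ev [] = fun _ : ℝ => (0 : ℝ) := by funext y; rfl
    rw [this]
    exact hasDerivAt_const x 0
  | cons c l ih =>
    have h : ev (c :: l) = fun y : ℝ => (c : ℝ) + y * ev l y := by funext y; rfl
    rw [h]
    have h2 := (((hasDerivAt_id' x).mul ih).const_add (c : ℝ))
    refine h2.congr_deriv ?_
    rw [der, ev_add]
    simp [ev]

theorem abs_ev_le (l : List ℤ) {x : ℝ} (h0 : 0 ≤ x) (h1 : x ≤ 1) : |ev l x| ≤ nrm l := by
  induction l with
  | nil => simp [ev, nrm]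
  | cons c l ih =>
    rw [ev, nrm]
    push_cast
    refine (abs_add_le _ _).trans ?_
    rw [abs_mul, abs_of_nonneg h0]
    have h2 : x * |ev l x| ≤ 1 * |ev l x| := mul_le_mul_of_nonneg_right h1 (abs_nonneg _)
    linarith

/-- the basic polynomial -/
def p : List ℤ := [10000000, -37500000, 39089384, 66703600, -269303000, 341630000, 10550000,
  -728420000, 1257090000, -1120980000, 547360000, -116250000]

/-- `z (1 - z)` -/
def z1 : List ℤ := [0, 1, -1]

def sub (a b : List ℤ) : List ℤ := add a (smul (-1) b)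

theorem ev_sub (a b : List ℤ) (x : ℝ) : ev (sub a b) x = ev a x - ev b x := by
  rw [sub, ev_add, ev_smul]
  push_cast
  ring

/-- `L = nl / (2 p)` -/
def nl : List ℤ := sub (mul [-2, 5] p) (mul z1 (der p))

/-- `L_x = n1 / (2 p ^ 2)` -/
def n1 : List ℤ := mul z1 (sub (mul (der nl) p) (mul nl (der p)))

/-- `Y = ny / (4 p ^ 2)` -/
def ny : List ℤ := sub (add (mul nl nl) (smul 2 (mul nl p))) (smul 2 n1)

/-- `Y_x = nyx / (4 p ^ 3)` -/
def nyx : List ℤ := mul z1 (sub (mul (der ny) p) (smul 2 (mul ny (der p))))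

/-- `2 Y - Y_x = tt / (4 p ^ 3)` -/
def tt : List ℤ := sub (smul 2 (mul ny p)) nyx

/-- `tt = z mm` -/
def mm : List ℤ := tt.tail

def p3 : List ℤ := mul p (mul p p)

/-- `z ^ 2 (1 - z) p` -/
def qq : List ℤ := mul [0, 0, 1, -1] p

def integ : ℕ → List ℤ → List ℤ
  | _, [] => []
  | k, c :: l => (2498261861 * 42875 * c * (360360 / ((k : ℤ) + 1))) :: integ (k + 1) l

/-- numerator of `S` -/
def sl : List ℤ := 0 :: integ 0 qq

/-- denominator of `S` -/
def DD : ℤ := 10 ^ 17 * 64 * 360360

/-- `rho * 35 p ^ 3 * DD` -/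
def rn : List ℤ := add (mul (smul 35 p3) (sub [DD] sl)) (smul DD (mul [1, -1] mm))

/-- list whose nonnegativity says `s * rho ≤ e / f` -/
def bd (s e f : ℤ) : List ℤ := sub (smul (e * 35 * DD) p3) (smul (s * f) rn)

/-- list whose nonnegativity says `s * rho ≤ e / f * z` -/
def bdz (s e f : ℤ) : List ℤ := sub (smul (e * 35 * DD) (0 :: p3)) (smul (s * f) rn)

theorem tt_head : tt.head? = some 0 := by decide +kernel

theorem ny_head : ny.head? = some 0 := by decide +kernel

theorem der_sl : eqv (der sl) (smul (2498261861 * 42875 * 360360) qq) = true := by decide +kernel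



end Pool.Agent.H97.TR
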