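import Pool.Agent.H97.TR.Glue

/-!
# Trial function of the Hartree ground state: the certificate, assembly
-/

set_option autoImplicit false

namespace Pool.Agent.H97.TR

open Pool.Agent.H99.PC Set MeasureTheory Filter Topology Pool.Agent.H99.HN

variable {r : ℝ}

/-! ### inner bounds -/

theorem zf_bd {a : ℝ} (hr : 0 < r) (ha : r * (1 - a) ≤ 35 / 4 * a) (ha1 : a < 1) : zf r ≤ a := by
  unfold zf
  rw [div_le_iff₀ (by positivity)]
  nlinarith

theorem zf_bd' {a : ℝ} (hr : 0 < r) (ha : 35 / 4 * a ≤ r * (1 - a)) : a ≤ zf r := by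
  unfold zf
  rw [le_div_iff₀ (by positivity)]
  nlinarith

theorem b0 (hr : 0 < r) (h : r ≤ 35 / 36) : |rhoin r| ≤ 4 / 350000 * r := by
  have h48 : r ≤ 48 := by linarith
  have hz := zf_pos hr
  have hz1 : zf r ≤ 1 / 10 := zf_bd hr (by linarith) (by norm_num)
  have h1 := rho_bdz (e := 1) (f := 10000) (by norm_num) hr h48
    (chk_sound (by norm_num) k0a (by push_cast; simpa using hz.le) (by push_cast; exact hz1))
    (chk_sound (by norm_num) k0b (by push_cast; simpa using hz.le) (by push_cast; exact hz1))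
  refine h1.trans ?_
  have h2 : zf r ≤ 4 / 35 * r := by
    unfold zf
    rw [div_le_iff₀ (by positivity)]
    nlinarith
  push_cast
  nlinarith

theorem b1 (hr : 35 / 36 ≤ r) (h : r ≤ 35 / 4) : |rhoin r| ≤ 1 / 100000 := by
  have hr0 : 0 < r := by linarith
  have h48 : r ≤ 48 := by linarith
  have hz1 : zf r ≤ 1 / 2 := zf_bd hr0 (by linarith) (by norm_num)
  have hz2 : 1 / 10 ≤ zf r := zf_bd' hr0 (by linarith)
  have h1 := rho_bd (e := 1) (f := 100000) (by norm_num) hr0 h48
    (chkL_nonneg (by norm_num) (by simp) k1a (b := 50) (by simp)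
      (by push_cast; linarith) (by push_cast; linarith))
    (chkL_nonneg (by norm_num) (by simp) k1b (b := 50) (by simp)
      (by push_cast; linarith) (by push_cast; linarith))
  refine h1.trans ?_
  norm_num

theorem b2 (hr : 35 / 4 ≤ r) (h : r ≤ 65 / 4) : |rhoin r| ≤ 13 / 1000000 := by
  have hr0 : 0 < r := by linarith
  have h48 : r ≤ 48 := by linarith
  have hz1 : zf r ≤ 65 / 100 := zf_bd hr0 (by linarith) (by norm_num)
  have hz2 : 1 / 2 ≤ zf r := zf_bd' hr0 (by linarith)
  have h1 := rho_bd (e := 13) (f := 1000000) (by norm_num) hr0 h48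
    (chk_sound (by norm_num) k2a (by push_cast; linarith) (by push_cast; linarith))
    (chk_sound (by norm_num) k2b (by push_cast; linarith) (by push_cast; linarith))
  refine h1.trans ?_
  norm_num

theorem b3 (hr : 65 / 4 ≤ r) (h : r ≤ 245 / 12) : |rhoin r| ≤ 35 / 1000000 := by
  have hr0 : 0 < r := by linarith
  have h48 : r ≤ 48 := by linarith
  have hz1 : zf r ≤ 70 / 100 := zf_bd hr0 (by linarith) (by norm_num)
  have hz2 : 65 / 100 ≤ zf r := zf_bd' hr0 (by linarith)
  have h1 := rho_bd (e := 35) (f := 1000000) (by norm_num) hr0 h48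
    (chk_sound (by norm_num) k3a (by push_cast; linarith) (by push_cast; linarith))
    (chk_sound (by norm_num) k3b (by push_cast; linarith) (by push_cast; linarith))
  refine h1.trans ?_
  norm_num

theorem b4 (hr : 245 / 12 ≤ r) (h : r ≤ 105 / 4) : |rhoin r| ≤ 45 / 1000000 := by
  have hr0 : 0 < r := by linarith
  have h48 : r ≤ 48 := by linarith
  have hz1 : zf r ≤ 75 / 100 := zf_bd hr0 (by linarith) (by norm_num)
  have hz2 : 70 / 100 ≤ zf r := zf_bd' hr0 (by linarith)
  have h1 := rho_bd (e := 45) (f := 1000000) (by norm_num) hr0 h48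
    (chk_sound (by norm_num) k4a (by push_cast; linarith) (by push_cast; linarith))
    (chk_sound (by norm_num) k4b (by push_cast; linarith) (by push_cast; linarith))
  refine h1.trans ?_
  norm_num

theorem b5 (hr : 105 / 4 ≤ r) (h : r ≤ 35) : |rhoin r| ≤ 90 / 1000000 := by
  have hr0 : 0 < r := by linarith
  have h48 : r ≤ 48 := by linarith
  have hz1 : zf r ≤ 80 / 100 := zf_bd hr0 (by linarith) (by norm_num)
  have hz2 : 75 / 100 ≤ zf r := zf_bd' hr0 (by linarith)
  have h1 := rho_bd (e := 90) (f := 1000000) (by norm_num) hr0 h48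
    (chk_sound (by norm_num) k5a (by push_cast; linarith) (by push_cast; linarith))
    (chk_sound (by norm_num) k5b (by push_cast; linarith) (by push_cast; linarith))
  refine h1.trans ?_
  norm_num

theorem b6 (hr : 35 ≤ r) (h : r ≤ 735 / 16) : |rhoin r| ≤ 150 / 1000000 := by
  have hr0 : 0 < r := by linarith
  have h48 : r ≤ 48 := by linarith
  have hz1 : zf r ≤ 84 / 100 := zf_bd hr0 (by linarith) (by norm_num)
  have hz2 : 80 / 100 ≤ zf r := zf_bd' hr0 (by linarith)
  have h1 := rho_bd (e := 150) (f := 1000000) (by norm_num) hr0 h48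
    (chkL_nonneg (by norm_num) (by simp) k6a (b := 84) (by simp)
      (by push_cast; linarith) (by push_cast; linarith))
    (chkL_nonneg (by norm_num) (by simp) k6b (b := 84) (by simp)
      (by push_cast; linarith) (by push_cast; linarith))
  refine h1.trans ?_
  norm_num

theorem b7 (hr : 735 / 16 ≤ r) (h : r ≤ 48) : |rhoin r| ≤ 520 / 1000000 := by
  have hr0 : 0 < r := by linarith
  have hz1 : zf r ≤ 192 / 227 := zf_le48 hr0 h
  have hz2 : 84 / 100 ≤ zf r := zf_bd' hr0 (by linarith)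
  have h1 := rho_bd (e := 520) (f := 1000000) (by norm_num) hr0 h
    (chk_sound (by norm_num) k7a (by push_cast; linarith) (by push_cast; linarith))
    (chk_sound (by norm_num) k7b (by push_cast; linarith) (by push_cast; linarith))
  refine h1.trans ?_
  norm_num

/-! ### continuity of `rho` on the two parts -/

theorem cont_ev (l : List ℤ) (hr : 0 < r) : ContinuousAt (fun r => ev l (zf r)) r :=
  (der_ev (l := l) hr).continuousAt

theorem cont_rhoin : ContinuousOn rhoin (Ioc 0 48) := by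
  intro r hr
  have hp := p_pos (zf_pos hr.1).le (zf_le48 hr.1 hr.2)
  refine ContinuousAt.continuousWithinAt ?_
  unfold rhoin
  refine ContinuousAt.add (ContinuousAt.sub continuousAt_const (derSin hr.1).continuousAt) ?_
  refine ContinuousAt.div ?_ continuousAt_id hr.1.ne'
  refine ContinuousAt.div (cont_ev tt hr.1) ?_ (by positivity)
  exact ContinuousAt.mul continuousAt_const ((cont_ev p hr.1).pow 3)

theorem cont_rhoout : ContinuousOn rhoout (Ioi 0) := by
  intro r hr
  have hr : 0 < r := hr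
  refine ContinuousAt.continuousWithinAt ?_
  have c1 := (derLout hr).continuousAt
  have c2 := (derLxout hr).continuousAt
  have c4 : ContinuousAt yf r := (der_yf hr).continuousAt
  have hw := yf_pos hr
  have ci : ContinuousAt (fun r => (yf r)⁻¹) r := c4.inv₀ hw.ne'
  have c3 : ContinuousAt Lxxout r := by
    unfold Lxxout ellxx
    exact ((((c4.div_const 4).add (continuousAt_const.mul ci)).sub
      (continuousAt_const.mul (ci.pow 2))).sub (continuousAt_const.mul (ci.pow 6))).sub
      (continuousAt_const.mul (ci.pow 8))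
  unfold rhoout Qout
  refine ContinuousAt.add (ContinuousAt.sub continuousAt_const (derSout hr).continuousAt) ?_
  refine ContinuousAt.div ?_ continuousAt_id hr.ne'
  exact (continuousAt_const.mul (((c1.pow 2).add c1).sub c2)).sub
    ((((continuousAt_const.mul c1).mul c2).add c2).sub c3)

theorem meas_in : AEStronglyMeasurable rho (volume.restrict (Ioc 0 48)) :=
  ((cont_rhoin.congr fun _ hr => rho_eq hr.2).aestronglyMeasurable measurableSet_Ioc)

theorem meas_out : AEStronglyMeasurable rho (volume.restrict (Ioi 48)) :=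
  (((cont_rhoout.mono (Ioi_subset_Ioi (by norm_num))).congr
    fun _ hr => rho_eq' hr).aestronglyMeasurable measurableSet_Ioi)

/-! ### integrals of the pieces -/

theorem int_inv_sq {a b : ℝ} (ha : 0 < a) (hab : a ≤ b) :
    IntegrableOn (fun r : ℝ => 1 / r ^ 2) (Ioc a b) ∧
      ∫ r in Ioc a b, 1 / r ^ 2 = 1 / a - 1 / b := by
  have hcinv : ContinuousOn (fun t : ℝ => 1 / t ^ 2) (Icc a b) := by
    intro t ht
    have : 0 < t := lt_of_lt_of_le ha ht.1
    exact (continuousAt_const.div (continuousAt_id.pow 2)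
      (pow_ne_zero 2 this.ne')).continuousWithinAt
  refine ⟨hcinv.integrableOn_Icc.mono_set Ioc_subset_Icc_self, ?_⟩
  rw [← intervalIntegral.integral_of_le hab]
  have hd : ∀ t ∈ Ioo a b, HasDerivAt (fun t : ℝ => -(1 / t)) (1 / t ^ 2) t := by
    intro t ht
    have ht0 : t ≠ 0 := (ha.trans ht.1).ne'
    have h0 : HasDerivAt (fun t : ℝ => -(t⁻¹)) (-(-(t ^ 2)⁻¹)) t := (hasDerivAt_inv ht0).neg
    have h00 : (fun t : ℝ => -(1 / t)) = fun t : ℝ => -(t⁻¹) := by
      funext t
      rw [one_div]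
    rw [h00, one_div]
    rwa [neg_neg] at h0
  have hc : ContinuousOn (fun t : ℝ => -(1 / t)) (Icc a b) := by
    intro t ht
    have : 0 < t := lt_of_lt_of_le ha ht.1
    exact (continuousAt_const.div continuousAt_id this.ne').neg.continuousWithinAt
  rw [intervalIntegral.integral_eq_sub_of_hasDerivAt_of_le hab hc hd (by
    refine ContinuousOn.intervalIntegrable ?_
    rwa [uIcc_of_le hab])]
  ring

theorem piece {a b c : ℝ} (ha : 0 < a) (hab : a ≤ b) (hb : b ≤ 48)
    (h : ∀ r, a ≤ r → r ≤ b → |rhoin r| ≤ c) :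
    IntegrableOn (fun r => rho r ^ 2 / r ^ 2) (Ioc a b) ∧
      ∫ r in Ioc a b, rho r ^ 2 / r ^ 2 ≤ c ^ 2 * (1 / a - 1 / b) := by
  obtain ⟨h1, h2⟩ := int_inv_sq ha hab
  have hsub : Ioc a b ⊆ Ioc 0 48 := fun r hr => ⟨ha.trans hr.1, hr.2.trans hb⟩
  have hm : AEStronglyMeasurable (fun r : ℝ => rho r ^ 2 / r ^ 2) (volume.restrict (Ioc a b)) := by
    have m1 := meas_in.mono_measure (Measure.restrict_mono hsub le_rfl)
    have m3 : AEStronglyMeasurable (fun t : ℝ => t⁻¹) (volume.restrict (Ioc a b)) :=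
      measurable_id.inv.aestronglyMeasurable
    refine ((m1.mul m3).pow 2).congr (Eventually.of_forall fun t => ?_)
    simp only [Pi.mul_apply, Pi.pow_apply]
    ring
  have hpt : ∀ r ∈ Ioc a b, rho r ^ 2 / r ^ 2 ≤ c ^ 2 * (1 / r ^ 2) := by
    intro r hr
    have hr0 : 0 < r := ha.trans hr.1
    rw [rho_eq (hr.2.trans hb), mul_one_div]
    refine div_le_div_of_nonneg_right ?_ (by positivity)
    rw [← sq_abs]
    exact pow_le_pow_left₀ (abs_nonneg _) (h r hr.1.le hr.2) 2
  have hi : IntegrableOn (fun r => rho r ^ 2 / r ^ 2) (Ioc a b) := by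
    refine (h1.const_mul (c ^ 2)).mono' hm ?_
    refine (ae_restrict_iff' measurableSet_Ioc).mpr (Eventually.of_forall fun r hr => ?_)
    rw [Real.norm_eq_abs, abs_of_nonneg (by positivity)]
    exact hpt r hr
  refine ⟨hi, ?_⟩
  rw [← h2, ← integral_const_mul]
  exact setIntegral_mono_on hi (h1.const_mul (c ^ 2)) measurableSet_Ioc hpt

theorem piece0 : IntegrableOn (fun r => rho r ^ 2 / r ^ 2) (Ioc 0 (35 / 36)) ∧
      ∫ r in Ioc 0 (35 / 36), rho r ^ 2 / r ^ 2 ≤ (4 / 350000) ^ 2 * (35 / 36) := by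
  have hsub : Ioc (0 : ℝ) (35 / 36) ⊆ Ioc 0 48 := fun r hr => ⟨hr.1, hr.2.trans (by norm_num)⟩
  have hm : AEStronglyMeasurable (fun r : ℝ => rho r ^ 2 / r ^ 2)
      (volume.restrict (Ioc 0 (35 / 36))) := by
    have m1 := meas_in.mono_measure (Measure.restrict_mono hsub le_rfl)
    have m3 : AEStronglyMeasurable (fun t : ℝ => t⁻¹) (volume.restrict (Ioc 0 (35 / 36))) :=
      measurable_id.inv.aestronglyMeasurable
    refine ((m1.mul m3).pow 2).congr (Eventually.of_forall fun t => ?_)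
    simp only [Pi.mul_apply, Pi.pow_apply]
    ring
  have h1 : IntegrableOn (fun _ : ℝ => ((4 : ℝ) / 350000) ^ 2) (Ioc 0 (35 / 36)) :=
    continuous_const.integrableOn_Ioc
  have hpt : ∀ r ∈ Ioc (0 : ℝ) (35 / 36), rho r ^ 2 / r ^ 2 ≤ (4 / 350000) ^ 2 := by
    intro r hr
    have hr0 : 0 < r := hr.1
    rw [rho_eq (hr.2.trans (by norm_num)), div_le_iff₀ (by positivity), ← sq_abs, ← mul_pow]
    exact pow_le_pow_left₀ (abs_nonneg _) (b0 hr.1 hr.2) 2
  have hi : IntegrableOn (fun r => rho r ^ 2 / r ^ 2) (Ioc 0 (35 / 36)) := by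
    refine h1.mono' hm ?_
    refine (ae_restrict_iff' measurableSet_Ioc).mpr (Eventually.of_forall fun r hr => ?_)
    rw [Real.norm_eq_abs, abs_of_nonneg (by positivity)]
    exact hpt r hr
  refine ⟨hi, ?_⟩
  have h3 := setIntegral_mono_on hi h1 measurableSet_Ioc hpt
  refine h3.trans (le_of_eq ?_)
  rw [setIntegral_const]
  simp
  norm_num

theorem int_inv_six : IntegrableOn (fun r : ℝ => 1 / r ^ 2) (Ioi 48) ∧
    ∫ r in Ioi (48 : ℝ), 1 / r ^ 2 = 1 / 48 ∧
    IntegrableOn (fun r : ℝ => 1 / r ^ 6) (Ioi 48) ∧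
    ∫ r in Ioi (48 : ℝ), 1 / r ^ 6 = 1 / (5 * 48 ^ 5) := by
  have e2 : EqOn (fun r : ℝ => r ^ (-2 : ℝ)) (fun r : ℝ => 1 / r ^ 2) (Ioi 48) := by
    intro r hr
    have hr0 : (0 : ℝ) < r := lt_trans (by norm_num) hr
    simp only
    rw [Real.rpow_neg hr0.le, one_div]
    norm_cast
  have e6 : EqOn (fun r : ℝ => r ^ (-6 : ℝ)) (fun r : ℝ => 1 / r ^ 6) (Ioi 48) := by
    intro r hr
    have hr0 : (0 : ℝ) < r := lt_trans (by norm_num) hr
    simp only
    rw [Real.rpow_neg hr0.le, one_div]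
    norm_cast
  have i2 := integrableOn_Ioi_rpow_of_lt (a := -2) (by norm_num) (c := 48) (by norm_num)
  have i6 := integrableOn_Ioi_rpow_of_lt (a := -6) (by norm_num) (c := 48) (by norm_num)
  refine ⟨i2.congr_fun e2 measurableSet_Ioi, ?_, i6.congr_fun e6 measurableSet_Ioi, ?_⟩
  · rw [← setIntegral_congr_fun measurableSet_Ioi e2,
      integral_Ioi_rpow_of_lt (by norm_num) (by norm_num)]
    have : ((-2 : ℝ) + 1) = -1 := by norm_num
    rw [this, Real.rpow_neg_one]
    norm_num
  · rw [← setIntegral_congr_fun measurableSet_Ioi e6,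
      integral_Ioi_rpow_of_lt (by norm_num) (by norm_num)]
    have : ((-6 : ℝ) + 1) = -(5 : ℕ) := by norm_num
    rw [this, Real.rpow_neg (by norm_num), Real.rpow_natCast]
    norm_num

theorem piece_out : IntegrableOn (fun r => rho r ^ 2 / r ^ 2) (Ioi 48) ∧
    ∫ r in Ioi (48 : ℝ), rho r ^ 2 / r ^ 2 ≤
      2 * (8 / 100000) ^ 2 * (1 / 48) + 2 * (88 / 100000) ^ 2 * 48 ^ 4 * (1 / (5 * 48 ^ 5)) := by
  obtain ⟨i2, v2, i6, v6⟩ := int_inv_six
  have hm : AEStronglyMeasurable (fun r : ℝ => rho r ^ 2 / r ^ 2) (volume.restrict (Ioi 48)) := by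
    have m3 : AEStronglyMeasurable (fun t : ℝ => t⁻¹) (volume.restrict (Ioi 48)) :=
      measurable_id.inv.aestronglyMeasurable
    refine ((meas_out.mul m3).pow 2).congr (Eventually.of_forall fun t => ?_)
    simp only [Pi.mul_apply, Pi.pow_apply]
    ring
  have hpt : ∀ r ∈ Ioi (48 : ℝ), rho r ^ 2 / r ^ 2 ≤
      2 * (8 / 100000) ^ 2 * (1 / r ^ 2) + 2 * (88 / 100000) ^ 2 * 48 ^ 4 * (1 / r ^ 6) := by
    intro r hr
    have hr' : 48 < r := hr
    have hr0 : 0 < r := by linarith
    have h1 := rhoout_bd hr'.le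
    rw [rho_eq' hr', ← sq_abs]
    have h2 : |rhoout r| ^ 2 ≤ (8 / 100000 + 88 / 100000 * (48 / r) ^ 2) ^ 2 :=
      pow_le_pow_left₀ (abs_nonneg _) h1 2
    have h3 : (8 / 100000 + 88 / 100000 * (48 / r) ^ 2) ^ 2 ≤
        2 * (8 / 100000) ^ 2 + 2 * (88 / 100000 * (48 / r) ^ 2) ^ 2 := by
      nlinarith [sq_nonneg (8 / 100000 - 88 / 100000 * (48 / r) ^ 2)]
    have h4 : |rhoout r| ^ 2 / r ^ 2 ≤
        (2 * (8 / 100000) ^ 2 + 2 * (88 / 100000 * (48 / r) ^ 2) ^ 2) / r ^ 2 :=
      div_le_div_of_nonneg_right (h2.trans h3) (by positivity)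
    refine h4.trans (le_of_eq ?_)
    field_simp
  have ib := (i2.const_mul (2 * (8 / 100000) ^ 2)).add
    (i6.const_mul (2 * (88 / 100000) ^ 2 * 48 ^ 4))
  have hi : IntegrableOn (fun r => rho r ^ 2 / r ^ 2) (Ioi 48) := by
    refine ib.mono' hm ?_
    refine (ae_restrict_iff' measurableSet_Ioi).mpr (Eventually.of_forall fun r hr => ?_)
    rw [Real.norm_eq_abs, abs_of_nonneg (by positivity)]
    exact hpt r hr
  refine ⟨hi, ?_⟩
  have h3 := setIntegral_mono_on hi ib measurableSet_Ioi hpt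
  refine h3.trans (le_of_eq ?_)
  have e := integral_add (i2.const_mul (2 * (8 / 100000) ^ 2))
    (i6.const_mul (2 * (88 / 100000) ^ 2 * 48 ^ 4))
  simp only [Pi.add_apply] at e ⊢
  rw [e, integral_const_mul, integral_const_mul, v2, v6]

theorem union_piece {f : ℝ → ℝ} {a b : ℝ} {A B : ℝ} (hab : a ≤ b)
    (h1 : IntegrableOn f (Ioc a b) ∧ ∫ r in Ioc a b, f r ≤ A)
    (h2 : IntegrableOn f (Ioi b) ∧ ∫ r in Ioi b, f r ≤ B) :
    IntegrableOn f (Ioi a) ∧ ∫ r in Ioi a, f r ≤ A + B := by
  rw [← Ioc_union_Ioi_eq_Ioi hab]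
  refine ⟨h1.1.union h2.1, ?_⟩
  have hd : Disjoint (Ioc a b) (Ioi b) := by
    rw [Set.disjoint_left]
    intro x hx hx'
    exact absurd hx.2 (not_le.2 hx')
  rw [setIntegral_union hd measurableSet_Ioi h1.1 h2.1]
  exact add_le_add h1.2 h2.2

theorem total : IntegrableOn (fun r => rho r ^ 2 / r ^ 2) (Ioi 0) ∧
    ∫ r in Ioi (0 : ℝ), rho r ^ 2 / r ^ 2 ≤ (1 / 10000) ^ 2 := by
  have h7 := union_piece (a := 735 / 16) (b := 48) (by norm_num)
    (piece (by norm_num) (by norm_num) le_rfl fun r h h' => b7 h h') piece_out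
  have h6 := union_piece (a := 35) (b := 735 / 16) (by norm_num)
    (piece (by norm_num) (by norm_num) (by norm_num) fun r h h' => b6 h h') h7
  have h5 := union_piece (a := 105 / 4) (b := 35) (by norm_num)
    (piece (by norm_num) (by norm_num) (by norm_num) fun r h h' => b5 h h') h6
  have h4 := union_piece (a := 245 / 12) (b := 105 / 4) (by norm_num)
    (piece (by norm_num) (by norm_num) (by norm_num) fun r h h' => b4 h h') h5
  have h3 := union_piece (a := 65 / 4) (b := 245 / 12) (by norm_num)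
    (piece (by norm_num) (by norm_num) (by norm_num) fun r h h' => b3 h h') h4
  have h2 := union_piece (a := 35 / 4) (b := 65 / 4) (by norm_num)
    (piece (by norm_num) (by norm_num) (by norm_num) fun r h h' => b2 h h') h3
  have h1 := union_piece (a := 35 / 36) (b := 35 / 4) (by norm_num)
    (piece (by norm_num) (by norm_num) (by norm_num) fun r h h' => b1 h h') h2
  have h0 := union_piece (a := 0) (b := 35 / 36) (by norm_num) piece0 h1
  refine ⟨h0.1, h0.2.trans ?_⟩
  norm_num

/-! ### bounds near zero and at infinity -/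

theorem zf_le_r (hr : 0 < r) : zf r ≤ r := by
  unfold zf
  rw [div_le_iff₀ (by positivity)]
  nlinarith

theorem sl_div : eqv sl (0 :: 0 :: 0 :: sl.drop 3) = true := by decide +kernel

theorem ny_div : eqv ny (0 :: ny.tail) = true := by decide +kernel

theorem near0 : ∃ C, ∀ r ∈ Ioc (0 : ℝ) 1,
    |Lh r + 1| ≤ C * r ∧ Ah r ≤ C * r ^ 2 ∧ |Sh r| ≤ C * r ^ 3 ∧ |ph r| ≤ C / r := by
  set Np : ℝ := ((nrm p : ℤ) : ℝ) with hNp
  set Nd : ℝ := ((nrm (der p) : ℤ) : ℝ) with hNd
  set Ns : ℝ := ((nrm (sl.drop 3) : ℤ) : ℝ) with hNs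
  set Nn : ℝ := ((nrm ny.tail : ℤ) : ℝ) with hNn
  have nn : ∀ l : List ℤ, (0 : ℝ) ≤ nrm l := fun l => by
    have := abs_ev_le l (x := 0) le_rfl zero_le_one
    exact (abs_nonneg _).trans this
  have n1' := nn p
  have n2' := nn (der p)
  have n3' := nn (sl.drop 3)
  have n4' := nn ny.tail
  rw [← hNp] at n1'
  rw [← hNd] at n2'
  rw [← hNs] at n3'
  rw [← hNn] at n4'
  refine ⟨5 * Np + Nd + Np + Ns + Nn, fun r hr => ?_⟩
  have hr0 := hr.1
  have h48 : r ≤ 48 := hr.2.trans (by norm_num)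
  have hz := zf_pos hr0
  have hz1 := zf_lt_one hr0
  have hzr := zf_le_r hr0
  have hp := p_lower hz.le (zf_le48 hr0 h48)
  have hp0 : 0 < ev p (zf r) := by linarith
  have bp := abs_ev_le p hz.le hz1.le
  have bd := abs_ev_le (der p) hz.le hz1.le
  have bs := abs_ev_le (sl.drop 3) hz.le hz1.le
  have bn := abs_ev_le ny.tail hz.le hz1.le
  rw [← hNp] at bp
  rw [← hNd] at bd
  rw [← hNs] at bs
  rw [← hNn] at bn
  rw [Lh_eq h48, Ah_eq h48, Sh_eq h48, ph_eq h48]
  refine ⟨?_, ?_, ?_, ?_⟩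
  · have e : Lin r + 1 = zf r * (5 * ev p (zf r) - (1 - zf r) * ev (der p) (zf r)) /
        (2 * ev p (zf r)) := by
      unfold Lin
      rw [ev_nl]
      field_simp
      ring
    rw [e, abs_div, abs_mul, abs_of_pos hz, abs_of_pos (by positivity : 0 < 2 * ev p (zf r)),
      div_le_iff₀ (by positivity)]
    have h1 : |5 * ev p (zf r) - (1 - zf r) * ev (der p) (zf r)| ≤ 5 * Np + Nd := by
      refine (abs_sub _ _).trans ?_
      rw [abs_mul, abs_mul, abs_of_nonneg (by linarith : (0 : ℝ) ≤ 1 - zf r)]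
      have h5 : |(5 : ℝ)| = 5 := by norm_num
      rw [h5]
      have : (1 - zf r) * |ev (der p) (zf r)| ≤ 1 * Nd :=
        mul_le_mul (by linarith) bd (abs_nonneg _) (by norm_num)
      linarith
    have h2 : zf r * |5 * ev p (zf r) - (1 - zf r) * ev (der p) (zf r)| ≤ r * (5 * Np + Nd) :=
      mul_le_mul hzr h1 (abs_nonneg _) hr0.le
    refine h2.trans ?_
    have h3 : (5 * Np + Nd + Np + Ns + Nn) * r * 1 ≤
        (5 * Np + Nd + Np + Ns + Nn) * r * (2 * ev p (zf r)) :=
      mul_le_mul_of_nonneg_left (by linarith) (by positivity)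
    refine le_trans ?_ h3
    nlinarith
  · unfold Ain
    have h1 : (1 - zf r) ^ 5 ≤ 1 := pow_le_one₀ (by linarith) (by linarith)
    have h2 : ev p (zf r) ≤ Np := (le_abs_self _).trans bp
    have h3 : 2498261861 / 10 ^ 10 * r ^ 2 * (1 - zf r) ^ 5 * (ev p (zf r) / 10 ^ 7) ≤
        1 * r ^ 2 * 1 * (Np / 1) := by
      gcongr
      · norm_num
      · norm_num
    refine h3.trans ?_
    have : 0 ≤ r ^ 2 := by positivity
    nlinarith
  · unfold Sin
    have hD : (1 : ℝ) ≤ DD := by
      have : (1 : ℤ) ≤ DD := by decide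
      exact_mod_cast this
    have e : ev sl (zf r) = zf r ^ 3 * ev (sl.drop 3) (zf r) := by
      rw [ev_eqv sl_div]
      simp only [ev]
      push_cast
      ring
    rw [e, abs_div, abs_mul, abs_of_pos (by positivity : 0 < zf r ^ 3),
      abs_of_pos (by linarith : (0 : ℝ) < DD), div_le_iff₀ (by linarith)]
    have h1 : zf r ^ 3 ≤ r ^ 3 := pow_le_pow_left₀ hz.le hzr 3
    have h2 : zf r ^ 3 * |ev (sl.drop 3) (zf r)| ≤ r ^ 3 * Ns :=
      mul_le_mul h1 bs (abs_nonneg _) (by positivity)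
    refine h2.trans ?_
    have h3 : (5 * Np + Nd + Np + Ns + Nn) * r ^ 3 * 1 ≤
        (5 * Np + Nd + Np + Ns + Nn) * r ^ 3 * DD :=
      mul_le_mul_of_nonneg_left hD (by positivity)
    refine le_trans ?_ h3
    have : 0 ≤ r ^ 3 := by positivity
    nlinarith
  · unfold phin
    have e : ev ny (zf r) = zf r * ev ny.tail (zf r) := by
      rw [ev_eqv ny_div]
      simp only [ev]
      push_cast
      ring
    rw [e, abs_div, abs_neg, abs_div, abs_mul, abs_of_pos hz,
      abs_of_pos (by positivity : 0 < 4 * ev p (zf r) ^ 2), abs_of_pos (by positivity : 0 < r ^ 2),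
      div_div, div_le_div_iff₀ (by positivity) hr0]
    have h1 : zf r * |ev ny.tail (zf r)| ≤ r * Nn := mul_le_mul hzr bn (abs_nonneg _) hr0.le
    have h2 : (1 : ℝ) ≤ 4 * ev p (zf r) ^ 2 := by nlinarith
    have h3 : r * Nn * r ≤ (5 * Np + Nd + Np + Ns + Nn) * r ^ 2 := by
      have : 0 ≤ r ^ 2 := by positivity
      nlinarith
    have h4 : (5 * Np + Nd + Np + Ns + Nn) * r ^ 2 * 1 ≤
        (5 * Np + Nd + Np + Ns + Nn) * r ^ 2 * (4 * ev p (zf r) ^ 2) :=
      mul_le_mul_of_nonneg_left h2 (by positivity)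
    have h5 : zf r * |ev ny.tail (zf r)| * r ≤ r * Nn * r := mul_le_mul_of_nonneg_right h1 hr0.le
    linarith

theorem yf_le_r (hr : 48 ≤ r) : yf r ≤ r := by
  have h0 : 0 < r := by linarith
  have h1 := yf_sq h0
  have hm : mR = 207507 / 1000000 := rfl
  have h2 := (yf_pos h0).le
  rw [hm] at h1
  nlinarith

theorem Lout_le (hr : 48 ≤ r) : |Lout r| ≤ yf r + 25 ∧ |Lxout r| ≤ yf r + 100 := by
  obtain ⟨h0, h1⟩ := v_bd (yf_ge hr)
  have hD1 := D1_bd
  have hD2 := D2_bd
  have hw : 0 ≤ yf r := (yf_pos (by linarith)).le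
  have hv1 : (yf r)⁻¹ ≤ 1 := h1.trans (by norm_num)
  have hpow : ∀ k : ℕ, 0 ≤ (yf r)⁻¹ ^ k ∧ (yf r)⁻¹ ^ k ≤ 1 := fun k =>
    ⟨by positivity, pow_le_one₀ h0.le hv1⟩
  obtain ⟨a2, b2⟩ := hpow 2
  obtain ⟨a6, b6⟩ := hpow 6
  obtain ⟨a8, b8⟩ := hpow 8
  have c1 : -3 ≤ D1c * (yf r)⁻¹ ^ 6 := by nlinarith [hD1.1, hD1.2]
  have c2 : D1c * (yf r)⁻¹ ^ 6 ≤ 0 := by nlinarith [hD1.1, hD1.2]
  have c3 : 0 ≤ D2c * (yf r)⁻¹ ^ 8 := by nlinarith [hD2.1, hD2.2]
  have c4 : D2c * (yf r)⁻¹ ^ 8 ≤ 20 := by nlinarith [hD2.1, hD2.2]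
  unfold Lout Lxout ell ellx
  constructor
  · rw [abs_le]
    constructor <;> linarith
  · rw [abs_le]
    constructor <;> linarith

theorem ph_lim : Tendsto ph atTop (𝓝 0) := by
  have hb : ∀ r, 48 < r → |ph r| ≤ 100 / r := by
    intro r hr
    have hr0 : 0 < r := by linarith
    obtain ⟨h1, h2⟩ := Lout_le hr.le
    have h3 := yf_sq hr0
    have h4 := yf_le_r hr.le
    have h5 := (yf_pos hr0).le
    have hm : mR = 207507 / 1000000 := rfl
    rw [hm] at h3
    rw [ph_eq' hr]
    unfold phout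
    rw [abs_div, abs_of_pos (by positivity : 0 < r ^ 2), div_le_div_iff₀ (by positivity) hr0]
    have h6 : |Lxout r - Lout r ^ 2 - Lout r| ≤ 100 * r := by
      have hL2 : Lout r ^ 2 ≤ (yf r + 25) ^ 2 := by
        rw [← sq_abs]
        exact pow_le_pow_left₀ (abs_nonneg _) h1 2
      have a1 := abs_le.1 h1
      have a2 := abs_le.1 h2
      have hL0 : 0 ≤ Lout r ^ 2 := sq_nonneg _
      rw [abs_le]
      constructor <;> nlinarith
    nlinarith
  have hg : Tendsto (fun r : ℝ => 100 / r) atTop (𝓝 0) := tendsto_const_nhds.div_atTop tendsto_id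
  refine squeeze_zero_norm' ?_ hg
  filter_upwards [eventually_gt_atTop 48] with r hr
  exact hb r hr

theorem A_lim : Tendsto Ah atTop (𝓝 0) := by
  have hb : ∀ r, 48 < r → |Ah r| ≤ 48 ^ 2 * Ain 48 / r ^ 2 := by
    intro r hr
    have hr0 : 0 < r := by linarith
    have h := anti_of_deriv (f := fun r => r ^ 2 * Aout r)
      (f' := fun r => (((2 : ℕ) : ℝ) * r ^ (2 - 1) * 1) * Aout r +
        r ^ 2 * (-(2 * Lout r / r * Aout r)))
      (fun r hr => ((hasDerivAt_id' r).pow 2).mul (derAout (by linarith))) (fun r hr => ?_) hr.le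
    · rw [Ah_eq' hr, abs_of_pos (Aout_pos r), le_div_iff₀ (by positivity)]
      simp only [Aout_48] at h
      linarith
    · have hr0 : 0 < r := by linarith
      have h1 := Aout_pos r
      have hL := Lout_ge hr
      simp only [Nat.cast_ofNat]
      have e : (2 : ℝ) * r ^ (2 - 1) * 1 * Aout r + r ^ 2 * (-(2 * Lout r / r * Aout r)) =
          2 * (r * Aout r) * (1 - Lout r) := by
        field_simp
        ring
      rw [e]
      have : 0 < r * Aout r := by positivity
      nlinarith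
  have hg : Tendsto (fun r : ℝ => 48 ^ 2 * Ain 48 / r ^ 2) atTop (𝓝 0) :=
    tendsto_const_nhds.div_atTop (tendsto_pow_atTop two_ne_zero)
  refine squeeze_zero_norm' ?_ hg
  filter_upwards [eventually_gt_atTop 48] with r hr
  exact hb r hr

theorem at_inf : ∃ C, ∀ r, 1 ≤ r → |Lh r| ≤ C * r ∧ |Sh r| ≤ C := by
  set Nl : ℝ := ((nrm nl : ℤ) : ℝ) with hNl
  set Ns : ℝ := ((nrm sl : ℤ) : ℝ) with hNs
  have nn : ∀ l : List ℤ, (0 : ℝ) ≤ nrm l := fun l => by
    have := abs_ev_le l (x := 0) le_rfl zero_le_one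
    exact (abs_nonneg _).trans this
  have n1' := nn nl
  have n2' := nn sl
  rw [← hNl] at n1'
  rw [← hNs] at n2'
  refine ⟨Nl + Ns + 30, fun r hr => ?_⟩
  have hr0 : 0 < r := by linarith
  rcases le_or_gt r 48 with h48 | h48
  · have hz := zf_pos hr0
    have hz1 := zf_lt_one hr0
    have hp := p_lower hz.le (zf_le48 hr0 h48)
    have hp0 : 0 < ev p (zf r) := by linarith
    have bl := abs_ev_le nl hz.le hz1.le
    have bs := abs_ev_le sl hz.le hz1.le
    rw [← hNl] at bl
    rw [← hNs] at bs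
    rw [Lh_eq h48, Sh_eq h48]
    constructor
    · unfold Lin
      rw [abs_div, abs_of_pos (by positivity : 0 < 2 * ev p (zf r)), div_le_iff₀ (by positivity)]
      have h3 : (Nl + Ns + 30) * r * 1 ≤ (Nl + Ns + 30) * r * (2 * ev p (zf r)) :=
        mul_le_mul_of_nonneg_left (by linarith) (by positivity)
      nlinarith
    · unfold Sin
      have hD : (1 : ℝ) ≤ DD := by
        have : (1 : ℤ) ≤ DD := by decide
        exact_mod_cast this
      rw [abs_div, abs_of_pos (by linarith : (0 : ℝ) < DD), div_le_iff₀ (by linarith)]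
      nlinarith
  · obtain ⟨h1, -⟩ := Lout_le h48.le
    have h4 := yf_le_r h48.le
    rw [Lh_eq' h48, Sh_eq' h48]
    constructor
    · nlinarith
    · have a1 := S_up h48.le
      have a2 := S_low h48.le
      have a3 := Uf_pos h48.le
      have a4 := U48
      have a5 := S48
      have a6 := U_dec h48.le
      have a7 : Uf 48 * (48 / r) ^ 2 ≤ Uf 48 * 1 := by
        refine mul_le_mul_of_nonneg_left ?_ (by linarith [a4.1])
        refine pow_le_one₀ (by positivity) ?_
        rw [div_le_one hr0]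
        exact h48.le
      norm_num at a4 a5
      rw [abs_le]
      constructor
      · linarith [a4.1, a4.2, a5.1, a5.2]
      · linarith [a4.1, a4.2, a5.1, a5.2]

/-- the certificate -/
theorem trial : Trial Sh Ah Lh ph rho {48} (1 / 10000) where
  Apos := by
    intro r hr
    rcases le_or_gt r 48 with h | h
    · rw [Ah_eq h]
      exact Ain_pos hr h
    · rw [Ah_eq' h]
      exact Aout_pos r
  derS := by
    intro r hr
    exact hasDerivAt_glue (fun r hr _ => derSin hr) (fun r hr => derSout (by linarith))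
      Sout_48.symm Aout_48.symm hr
  derA := by
    intro r hr
    have h := hasDerivAt_glue (f' := fun r => -(2 * Lin r / r * Ain r))
      (g' := fun r => -(2 * Lout r / r * Aout r)) (fun r hr h => derAin hr h)
      (fun r hr => derAout (by linarith)) Aout_48.symm
      (by simp only [Lout_48, Aout_48]) hr
    refine h.congr_deriv ?_
    rcases le_or_gt r 48 with h | h
    · rw [if_pos h, Lh_eq h, Ah_eq h]
    · rw [if_neg (not_le.2 h), Lh_eq' h, Ah_eq' h]
  derL := by
    intro r hr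
    have h := hasDerivAt_glue (f' := fun r => Lxin r / r)
      (g' := fun r => Lxout r / r) (fun r hr h => derLin hr h)
      (fun r hr => derLout (by linarith)) Lout_48.symm
      (by simp only [Lxout_48]) hr
    refine h.congr_deriv ?_
    rcases le_or_gt r 48 with h | h
    · rw [if_pos h, Lh_eq h, ph_eq h, phin_eq hr h]
      ring
    · rw [if_neg (not_le.2 h), Lh_eq' h, ph_eq' h]
      unfold phout
      field_simp
      ring
  contp := by
    intro r hr
    exact (continuousAt_glue (fun r hr h => (derphin hr h).continuousAt)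
      (fun r hr => (derphout (by linarith)).continuousAt) phout_48.symm hr).continuousWithinAt
  derp := by
    intro r hr hK
    have hne : r ≠ 48 := by simpa using hK
    rcases lt_or_gt_of_ne hne with h | h
    · rw [rho_eq h.le, Sh_eq h.le]
      refine (derphin hr h.le).congr_of_eventuallyEq ?_
      filter_upwards [Iio_mem_nhds h] with t ht
      exact ph_eq (le_of_lt ht)
    · rw [rho_eq' h, Sh_eq' h]
      refine (derphout hr).congr_of_eventuallyEq ?_
      filter_upwards [Ioi_mem_nhds h] with t ht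
      exact ph_eq' ht
  bd0 := near0
  bdi := at_inf
  limA := A_lim
  limp := ph_lim
  meas := by
    rw [← Ioc_union_Ioi_eq_Ioi (by norm_num : (0 : ℝ) ≤ 48)]
    exact (aestronglyMeasurable_union_iff).2 ⟨meas_in, meas_out⟩
  rint := total.1
  rbd := total.2
  eps0 := by norm_num

end Pool.Agent.H97.TR
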