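import Pool.Agent.H97.TR.Base

/-!
# Trial function of the Hartree ground state: kernel checks
-/

set_option autoImplicit false

namespace Pool.Agent.H97.TR

open Pool.Agent.H99.PC

theorem kp : chkL (sub p [10000]) 5675 [0, 2000, 4000, 4500, 4700, 4800] = true := by
  decide +kernel
theorem k0a : chk (bdz 1 1 10000) 0 1 10 = true := by decide +kernel
theorem k0b : chk (bdz (-1) 1 10000) 0 1 10 = true := by decide +kernel
theorem k1a : chkL (bd 1 1 100000) 100 [10, 20, 30, 40, 50] = true := by decide +kernel
theorem k1b : chkL (bd (-1) 1 100000) 100 [10, 20, 30, 40, 50] = true := by decide +kernel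
theorem k2a : chk (bd 1 13 1000000) 50 65 100 = true := by decide +kernel
theorem k2b : chk (bd (-1) 13 1000000) 50 65 100 = true := by decide +kernel
theorem k3a : chk (bd 1 35 1000000) 65 70 100 = true := by decide +kernel
theorem k3b : chk (bd (-1) 35 1000000) 65 70 100 = true := by decide +kernel
theorem k4a : chk (bd 1 45 1000000) 70 75 100 = true := by decide +kernel
theorem k4b : chk (bd (-1) 45 1000000) 70 75 100 = true := by decide +kernel
theorem k5a : chk (bd 1 90 1000000) 75 80 100 = true := by decide +kernel
theorem k5b : chk (bd (-1) 90 1000000) 75 80 100 = true := by decide +kernel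
theorem k6a : chkL (bd 1 150 1000000) 100 [80, 82, 84] = true := by decide +kernel
theorem k6b : chkL (bd (-1) 150 1000000) 100 [80, 82, 84] = true := by decide +kernel
theorem k7a : chk (bd 1 520 1000000) 4767 4800 5675 = true := by decide +kernel
theorem k7b : chk (bd (-1) 520 1000000) 4767 4800 5675 = true := by decide +kernel

end Pool.Agent.H97.TR
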