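import Pool.Agent.H97.TR.Tail
import Pool.Agent.H99.HN.Trial2

/-!
# Trial function of the Hartree ground state: the certificate
-/

set_option autoImplicit false

namespace Pool.Agent.H97.TR

open Pool.Agent.H99.PC Set MeasureTheory Filter Topology

/-! ### gluing -/

theorem hasDerivAt_glue {f g f' g' : ℝ → ℝ} {R : ℝ}
    (hf : ∀ r, 0 < r → r ≤ R → HasDerivAt f (f' r) r) (hg : ∀ r, R ≤ r → HasDerivAt g (g' r) r)
    (h : f R = g R) (h' : f' R = g' R) {r : ℝ} (hr : 0 < r) :
    HasDerivAt (fun r => if r ≤ R then f r else g r) (if r ≤ R then f' r else g' r) r := by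
  rcases lt_trichotomy r R with hlt | heq | hgt
  · rw [if_pos hlt.le]
    refine (hf r hr hlt.le).congr_of_eventuallyEq ?_
    filter_upwards [Iio_mem_nhds hlt] with t ht
    rw [if_pos (le_of_lt ht)]
  · subst heq
    rw [if_pos le_rfl]
    have h1 : HasDerivWithinAt (fun t => if t ≤ r then f t else g t) (f' r) (Iic r) r := by
      refine (hf r hr le_rfl).hasDerivWithinAt.congr (fun t ht => if_pos ht) (if_pos le_rfl)
    have h2 : HasDerivWithinAt (fun t => if t ≤ r then f t else g t) (f' r) (Ici r) r := by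
      rw [h']
      refine (hg r le_rfl).hasDerivWithinAt.congr (fun t ht => ?_) ?_
      · by_cases hc : t ≤ r
        · have : t = r := le_antisymm hc ht
          rw [this, if_pos le_rfl, h]
        · rw [if_neg hc]
      · rw [if_pos le_rfl, h]
    have h3 := h1.union h2
    rw [Iic_union_Ici] at h3
    exact hasDerivWithinAt_univ.1 h3
  · rw [if_neg (not_le.2 hgt)]
    refine (hg r hgt.le).congr_of_eventuallyEq ?_
    filter_upwards [Ioi_mem_nhds hgt] with t ht
    rw [if_neg (not_le.2 ht)]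

theorem continuousAt_glue {f g : ℝ → ℝ} {R : ℝ}
    (hf : ∀ r, 0 < r → r ≤ R → ContinuousAt f r) (hg : ∀ r, R ≤ r → ContinuousAt g r)
    (h : f R = g R) {r : ℝ} (hr : 0 < r) :
    ContinuousAt (fun r => if r ≤ R then f r else g r) r := by
  rcases lt_trichotomy r R with hlt | heq | hgt
  · refine (hf r hr hlt.le).congr ?_
    filter_upwards [Iio_mem_nhds hlt] with t ht
    rw [if_pos (le_of_lt ht)]
  · subst heq
    have h1 : ContinuousWithinAt (fun t => if t ≤ r then f t else g t) (Iic r) r :=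
      (hf r hr le_rfl).continuousWithinAt.congr (fun t ht => if_pos ht) (if_pos le_rfl)
    have h2 : ContinuousWithinAt (fun t => if t ≤ r then f t else g t) (Ici r) r := by
      refine (hg r le_rfl).continuousWithinAt.congr (fun t ht => ?_) ?_
      · by_cases hc : t ≤ r
        · have : t = r := le_antisymm hc ht
          rw [this, if_pos le_rfl, h]
        · rw [if_neg hc]
      · rw [if_pos le_rfl, h]
    have h3 := h1.union h2
    rw [Iic_union_Ici] at h3
    exact continuousWithinAt_univ _ _ |>.1 h3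
  · refine (hg r hgt.le).congr ?_
    filter_upwards [Ioi_mem_nhds hgt] with t ht
    rw [if_neg (not_le.2 ht)]

noncomputable def Sh (r : ℝ) : ℝ := if r ≤ 48 then Sin r else Sout r
noncomputable def Ah (r : ℝ) : ℝ := if r ≤ 48 then Ain r else Aout r
noncomputable def Lh (r : ℝ) : ℝ := if r ≤ 48 then Lin r else Lout r
noncomputable def ph (r : ℝ) : ℝ := if r ≤ 48 then phin r else phout r
noncomputable def rho (r : ℝ) : ℝ := if r ≤ 48 then rhoin r else rhoout r

theorem Sh_eq {r : ℝ} (h : r ≤ 48) : Sh r = Sin r := if_pos h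
theorem Ah_eq {r : ℝ} (h : r ≤ 48) : Ah r = Ain r := if_pos h
theorem Lh_eq {r : ℝ} (h : r ≤ 48) : Lh r = Lin r := if_pos h
theorem ph_eq {r : ℝ} (h : r ≤ 48) : ph r = phin r := if_pos h
theorem rho_eq {r : ℝ} (h : r ≤ 48) : rho r = rhoin r := if_pos h
theorem Sh_eq' {r : ℝ} (h : 48 < r) : Sh r = Sout r := if_neg (not_le.2 h)
theorem Ah_eq' {r : ℝ} (h : 48 < r) : Ah r = Aout r := if_neg (not_le.2 h)
theorem Lh_eq' {r : ℝ} (h : 48 < r) : Lh r = Lout r := if_neg (not_le.2 h)
theorem ph_eq' {r : ℝ} (h : 48 < r) : ph r = phout r := if_neg (not_le.2 h)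
theorem rho_eq' {r : ℝ} (h : 48 < r) : rho r = rhoout r := if_neg (not_le.2 h)

/-! ### the tail -/

section tail

variable {r : ℝ}

theorem Lout_ge (hr : 48 ≤ r) : 29 / 10 ≤ Lout r := by
  have h := ell_ge (yf_ge hr)
  have h2 := yf_ge hr
  have hy : y0 = 789 / 250 := rfl
  unfold Lout
  rw [hy] at h2
  linarith

/-- `U = r A / (2 L - 1)` -/
noncomputable def Uf (r : ℝ) : ℝ := r * Aout r / (2 * Lout r - 1)

theorem derU (hr : 48 ≤ r) : HasDerivAt Uf
    (-(Aout r) - 2 * Aout r * Lxout r / (2 * Lout r - 1) ^ 2) r := by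
  have hr0 : 0 < r := by linarith
  have hL := Lout_ge hr
  have hne : 2 * Lout r - 1 ≠ 0 := by linarith
  have h := ((hasDerivAt_id' r).mul (derAout hr0)).div (((derLout hr0).const_mul 2).sub_const 1) hne
  refine HasDerivAt.congr_deriv (f := Uf) h ?_
  simp only [Pi.mul_apply]
  field_simp
  ring

theorem Uf_pos (hr : 48 ≤ r) : 0 < Uf r := by
  have hL := Lout_ge hr
  have hA := Aout_pos r
  unfold Uf
  have : 0 < 2 * Lout r - 1 := by linarith
  have : 0 < r := by linarith
  positivity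

theorem Lxout_pos (hr : 48 ≤ r) : 0 < Lxout r := by
  have := ellx_ge (yf_ge hr)
  unfold Lxout
  linarith

theorem anti_of_deriv {f f' : ℝ → ℝ} (h : ∀ r, 48 ≤ r → HasDerivAt f (f' r) r)
    (h' : ∀ r, 48 ≤ r → f' r ≤ 0) {r : ℝ} (hr : 48 ≤ r) : f r ≤ f 48 := by
  have hanti : AntitoneOn f (Ici 48) := by
    refine antitoneOn_of_deriv_nonpos (convex_Ici 48) ?_ ?_ ?_
    · exact fun t ht => (h t ht).continuousAt.continuousWithinAt
    · intro t ht
      rw [interior_Ici] at ht
      exact (h t (le_of_lt ht)).differentiableAt.differentiableWithinAt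
    · intro t ht
      rw [interior_Ici] at ht
      rw [(h t (le_of_lt ht)).deriv]
      exact h' t (le_of_lt ht)
  exact hanti self_mem_Ici hr hr

theorem S_up (hr : 48 ≤ r) : Sout r + Uf r ≤ Sin 48 + Uf 48 := by
  have h := anti_of_deriv (f := fun r => Sout r + Uf r)
    (f' := fun r => Aout r + (-(Aout r) - 2 * Aout r * Lxout r / (2 * Lout r - 1) ^ 2))
    (fun r hr => (derSout (by linarith)).add (derU hr)) (fun r hr => ?_) hr
  · simp only [Sout_48] at h
    exact h
  · have h1 := Lxout_pos hr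
    have h2 := Aout_pos r
    have h3 : 0 ≤ 2 * Aout r * Lxout r / (2 * Lout r - 1) ^ 2 := by positivity
    linarith

theorem S_low (hr : 48 ≤ r) : Sin 48 + Uf 48 / (114 / 100) ≤ Sout r + Uf r / (114 / 100) := by
  have h := anti_of_deriv (f := fun r => -(Sout r + Uf r / (114 / 100)))
    (f' := fun r => -(Aout r + (-(Aout r) - 2 * Aout r * Lxout r / (2 * Lout r - 1) ^ 2) /
      (114 / 100)))
    (fun r hr => ((derSout (by linarith)).add ((derU hr).div_const (114 / 100))).neg)
      (fun r hr => ?_) hr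
  · simp only [Sout_48] at h
    linarith
  · have h1 := g_le (yf_ge hr)
    have h2 := Aout_pos r
    have hL := Lout_ge hr
    have h5 : 0 < (2 * Lout r - 1) ^ 2 := by
      have : 0 < 2 * Lout r - 1 := by linarith
      positivity
    have h3 : 2 * Aout r * Lxout r / (2 * Lout r - 1) ^ 2 ≤ 14 / 100 * Aout r := by
      rw [div_le_iff₀ h5]
      unfold Lxout Lout
      nlinarith
    linarith

theorem U_dec (hr : 48 ≤ r) : Uf r ≤ Uf 48 * (48 / r) ^ 2 := by
  have h := anti_of_deriv (f := fun r => r ^ 2 * Uf r)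
    (f' := fun r => (((2 : ℕ) : ℝ) * r ^ (2 - 1) * 1) * Uf r + r ^ 2 * (-(Aout r) -
      2 * Aout r * Lxout r / (2 * Lout r - 1) ^ 2))
    (fun r hr => ((hasDerivAt_id' r).pow 2).mul (derU hr)) (fun r hr => ?_) hr
  · have hr0 : 0 < r := by linarith
    have h2 : Uf r = (r ^ 2 * Uf r) / r ^ 2 := by field_simp
    rw [h2, div_pow, ← mul_div_assoc]
    refine div_le_div_of_nonneg_right ?_ (by positivity)
    linarith
  · have h1 := Lxout_pos hr
    have h2 := Aout_pos r
    have hL := Lout_ge hr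
    have hr0 : 0 < r := by linarith
    have h3 : 0 ≤ 2 * Aout r * Lxout r / (2 * Lout r - 1) ^ 2 := by positivity
    have h5 : 0 < 2 * Lout r - 1 := by linarith
    have h4 : 2 * Uf r ≤ r * Aout r := by
      unfold Uf
      rw [← mul_div_assoc, div_le_iff₀ h5]
      have : 0 < r * Aout r := by positivity
      nlinarith
    have h6 : 0 ≤ r ^ 2 * (2 * Aout r * Lxout r / (2 * Lout r - 1) ^ 2) := by positivity
    simp only [Nat.cast_ofNat]
    have h7 : r * (2 * Uf r) ≤ r * (r * Aout r) := mul_le_mul_of_nonneg_left h4 hr0.le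
    have h8 : (2 : ℝ) * r ^ (2 - 1) * 1 * Uf r = r * (2 * Uf r) := by ring
    rw [h8]
    nlinarith

theorem U48 : 8624 / 10 ^ 7 ≤ Uf 48 ∧ Uf 48 ≤ 8626 / 10 ^ 7 := by
  have hA := A48
  have hL := L48
  unfold Uf
  rw [Aout_48, Lout_48]
  have h5 : 0 < 2 * Lin 48 - 1 := by
    have := hL.1
    norm_num at this ⊢
    linarith
  constructor
  · rw [div_le_div_iff₀ (by positivity) h5]
    have h1 := hA.1
    have h2 := hL.2
    norm_num at h1 h2 ⊢
    linarith
  · rw [div_le_div_iff₀ h5 (by positivity)]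
    have h1 := hA.2
    have h2 := hL.1
    norm_num at h1 h2 ⊢
    linarith

theorem rhoout_bd (hr : 48 ≤ r) : |rhoout r| ≤ 8 / 100000 + 88 / 100000 * (48 / r) ^ 2 := by
  have h1 := S_up hr
  have h2 := S_low hr
  have h3 := U_dec hr
  have h4 := Qout_bd hr
  have h5 := U48
  have h6 := S48
  have h7 := Uf_pos hr
  have hm : mR = 207507 / 1000000 := rfl
  rw [hm] at h4
  have hq : 0 ≤ (48 / r) ^ 2 := by positivity
  have h8 : Uf r ≤ 8626 / 10 ^ 7 * (48 / r) ^ 2 := h3.trans (mul_le_mul_of_nonneg_right h5.2 hq)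
  unfold rhoout
  norm_num at h5 h6 h8
  rw [abs_le]
  constructor
  · linarith [h4.1, h4.2, h5.1, h5.2, h6.1, h6.2]
  · linarith [h4.1, h4.2, h5.1, h5.2, h6.1, h6.2]

end tail

end Pool.Agent.H97.TR
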