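import Pool.Agent.H97.TR.Checks

/-!
# Trial function of the Hartree ground state: inner part
-/

set_option autoImplicit false

namespace Pool.Agent.H97.TR

open Pool.Agent.H99.PC Set

/-- the variable `z` -/
noncomputable def zf (r : ℝ) : ℝ := r / (r + 35 / 4)

theorem zf_pos {r : ℝ} (hr : 0 < r) : 0 < zf r := by unfold zf; positivity

theorem zf_lt_one {r : ℝ} (hr : 0 < r) : zf r < 1 := by
  unfold zf
  rw [div_lt_one (by positivity)]
  linarith

theorem zf_le {r a : ℝ} (hr : 0 < r) (h : r ≤ a) : zf r ≤ zf a := by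
  unfold zf
  rw [div_le_div_iff₀ (by positivity) (by linarith)]
  nlinarith

theorem zf_48 : zf 48 = 192 / 227 := by unfold zf; norm_num

theorem zf_le48 {r : ℝ} (hr : 0 < r) (h : r ≤ 48) : zf r ≤ 192 / 227 := by
  rw [← zf_48]
  exact zf_le hr h

theorem r_eq {r : ℝ} (hr : 0 < r) : r * (1 - zf r) = 35 / 4 * zf r := by
  unfold zf
  have : r + 35 / 4 ≠ 0 := by positivity
  field_simp
  ring

theorem der_zf {r : ℝ} (hr : 0 < r) : HasDerivAt zf (zf r * (1 - zf r) / r) r := by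
  have h : HasDerivAt (fun r : ℝ => r / (r + 35 / 4))
      ((1 * (r + 35 / 4) - r * 1) / (r + 35 / 4) ^ 2) r :=
    (hasDerivAt_id' r).div ((hasDerivAt_id' r).add_const _) (by positivity)
  unfold zf
  refine h.congr_deriv ?_
  field_simp

theorem der_ev {l : List ℤ} {r : ℝ} (hr : 0 < r) :
    HasDerivAt (fun r => ev l (zf r)) (ev (der l) (zf r) * (zf r * (1 - zf r) / r)) r :=
  (hasDerivAt_ev l (zf r)).comp r (der_zf hr)

/-- nonnegativity on a chain of intervals -/
theorem chkL_nonneg {l : List ℤ} {w : ℤ} (hw : 0 < w) {p : List ℤ} {a b : ℤ} (hp : p ≠ [])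
    (h : chkL l w (a :: p) = true) (hb : (a :: p).getLast? = some b) {x : ℝ}
    (h1 : (a : ℝ) / w ≤ x) (h2 : x ≤ (b : ℝ) / w) : 0 ≤ ev l x := by
  rcases chkL_sound hw p a b h hb x h1 h2 with h | h
  · exact h
  · exact absurd h hp

theorem p_lower {z : ℝ} (h0 : 0 ≤ z) (h1 : z ≤ 192 / 227) : 10000 ≤ ev p z := by
  have h := chkL_nonneg (l := sub p [10000]) (w := 5675) (by norm_num) (by simp) kp
    (b := 4800) (by simp) (x := z) (by push_cast; linarith) (by push_cast; linarith)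
  rw [ev_sub] at h
  simp only [ev] at h
  push_cast at h
  linarith

theorem p_pos {z : ℝ} (h0 : 0 ≤ z) (h1 : z ≤ 192 / 227) : 0 < ev p z := by
  have := p_lower h0 h1
  linarith

/-- `S` -/
noncomputable def Sin (r : ℝ) : ℝ := ev sl (zf r) / DD

/-- `A = S'` -/
noncomputable def Ain (r : ℝ) : ℝ :=
  2498261861 / 10 ^ 10 * r ^ 2 * (1 - zf r) ^ 5 * (ev p (zf r) / 10 ^ 7)

/-- `L` -/
noncomputable def Lin (r : ℝ) : ℝ := ev nl (zf r) / (2 * ev p (zf r))

/-- `r L'` -/
noncomputable def Lxin (r : ℝ) : ℝ := ev n1 (zf r) / (2 * ev p (zf r) ^ 2)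

/-- the potential -/
noncomputable def phin (r : ℝ) : ℝ := -(ev ny (zf r) / (4 * ev p (zf r) ^ 2)) / r ^ 2

/-- `rho` -/
noncomputable def rhoin (r : ℝ) : ℝ := 1 - Sin r + ev tt (zf r) / (4 * ev p (zf r) ^ 3) / r

theorem ev_z1 (z : ℝ) : ev z1 z = z * (1 - z) := by
  simp only [z1, ev]; push_cast; ring

theorem ev_n1 (z : ℝ) : ev n1 z =
    z * (1 - z) * (ev (der nl) z * ev p z - ev nl z * ev (der p) z) := by
  rw [n1, ev_mul, ev_sub, ev_mul, ev_mul, ev_z1]

theorem ev_ny (z : ℝ) : ev ny z = ev nl z ^ 2 + 2 * (ev nl z * ev p z) - 2 * ev n1 z := by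
  rw [ny, ev_sub, ev_add, ev_mul, ev_smul, ev_smul, ev_mul]
  push_cast
  ring

theorem ev_tt (z : ℝ) : ev tt z = 2 * (ev ny z * ev p z) -
    z * (1 - z) * (ev (der ny) z * ev p z - 2 * (ev ny z * ev (der p) z)) := by
  rw [tt, ev_sub, ev_smul, ev_mul, nyx, ev_mul, ev_z1, ev_sub, ev_mul, ev_smul, ev_mul]
  push_cast
  ring

theorem ev_nl (z : ℝ) : ev nl z = (5 * z - 2) * ev p z - z * (1 - z) * ev (der p) z := by
  rw [nl, ev_sub, ev_mul, ev_mul, ev_z1]
  simp only [ev]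
  push_cast
  ring

variable {r : ℝ}

theorem derLin (hr : 0 < r) (h48 : r ≤ 48) : HasDerivAt Lin (Lxin r / r) r := by
  have hp := p_pos (zf_pos hr).le (zf_le48 hr h48)
  have h1 := (der_ev (l := nl) hr).div ((der_ev (l := p) hr).const_mul 2)
    (mul_ne_zero two_ne_zero hp.ne')
  refine h1.congr_deriv ?_
  unfold Lxin
  rw [ev_n1]
  field_simp

theorem phin_eq (hr : 0 < r) (h48 : r ≤ 48) :
    r ^ 2 * phin r = Lxin r - Lin r ^ 2 - Lin r := by
  have hp := p_pos (zf_pos hr).le (zf_le48 hr h48)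
  unfold phin Lxin Lin
  rw [ev_ny]
  field_simp
  ring

theorem derphin (hr : 0 < r) (h48 : r ≤ 48) :
    HasDerivAt phin ((rhoin r - 1 + Sin r) / r ^ 2) r := by
  have hp := p_pos (zf_pos hr).le (zf_le48 hr h48)
  have h1 : HasDerivAt (fun r => -(ev ny (zf r) / (4 * ev p (zf r) ^ 2)) / r ^ 2) _ r :=
    (((der_ev (l := ny) hr).div (((der_ev (l := p) hr).pow 2).const_mul 4)
      (mul_ne_zero four_ne_zero (pow_ne_zero 2 hp.ne'))).neg).div
      ((hasDerivAt_id' r).pow 2) (pow_ne_zero 2 hr.ne')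
  refine HasDerivAt.congr_deriv h1 ?_
  unfold rhoin
  rw [ev_tt]
  simp only [Pi.mul_apply, Pi.div_apply, Pi.pow_apply, Pi.neg_apply]
  push_cast
  field_simp
  ring

theorem derSin (hr : 0 < r) : HasDerivAt Sin (Ain r) r := by
  have h1 := (der_ev (l := sl) hr).div_const (DD : ℝ)
  refine h1.congr_deriv ?_
  rw [ev_eqv der_sl, ev_smul, qq, ev_mul]
  unfold Ain
  have e := r_eq hr
  have e3 : r ^ 3 * (1 - zf r) ^ 3 = (35 / 4 * zf r) ^ 3 := by rw [← e]; ring
  have e4 : ev [0, 0, 1, -1] (zf r) = zf r ^ 2 * (1 - zf r) := by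
    simp only [ev]; push_cast; ring
  rw [e4]
  have hD : (DD : ℝ) = 10 ^ 17 * 64 * 360360 := by unfold DD; push_cast; ring
  rw [hD]
  have e5 : 2498261861 / 10 ^ 10 * r ^ 2 * (1 - zf r) ^ 5 * (ev p (zf r) / 10 ^ 7) =
      2498261861 / 10 ^ 17 * (r ^ 3 * (1 - zf r) ^ 3) * (1 - zf r) ^ 2 * ev p (zf r) / r := by
    field_simp
  rw [e5, e3]
  push_cast
  field_simp
  ring

theorem derAin (hr : 0 < r) (h48 : r ≤ 48) :
    HasDerivAt Ain (-(2 * Lin r / r * Ain r)) r := by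
  have hp := p_pos (zf_pos hr).le (zf_le48 hr h48)
  have h1 : HasDerivAt (fun r => 2498261861 / 10 ^ 10 * r ^ 2 * (1 - zf r) ^ 5 *
      (ev p (zf r) / 10 ^ 7)) _ r :=
    ((((hasDerivAt_id' r).pow 2).const_mul (2498261861 / 10 ^ 10)).mul
      (((der_zf hr).const_sub 1).pow 5)).mul ((der_ev (l := p) hr).div_const (10 ^ 7))
  refine HasDerivAt.congr_deriv h1 ?_
  unfold Ain Lin
  rw [ev_nl]
  simp only [Pi.mul_apply, Pi.div_apply, Pi.pow_apply, Pi.neg_apply]
  push_cast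
  field_simp
  ring

theorem Ain_pos (hr : 0 < r) (h48 : r ≤ 48) : 0 < Ain r := by
  have hp := p_pos (zf_pos hr).le (zf_le48 hr h48)
  have := zf_lt_one hr
  have : 0 < 1 - zf r := by linarith
  unfold Ain
  positivity

/-- the numerator of `rho` -/
theorem rhoin_eq (hr : 0 < r) (h48 : r ≤ 48) :
    ev rn (zf r) = rhoin r * (35 * DD * ev p3 (zf r)) := by
  have hp := p_pos (zf_pos hr).le (zf_le48 hr h48)
  have hz := zf_pos hr
  have ht : ev tt (zf r) = zf r * ev mm (zf r) := by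
    have h1 : tt = 0 :: mm := by
      have h2 : tt ≠ [] := fun h => by
        have h3 := tt_head
        rw [h] at h3
        simp at h3
      have h4 := List.cons_head_tail h2
      have h5 : tt.head h2 = 0 := by
        have h3 := tt_head
        rw [List.head?_eq_some_head h2] at h3
        exact Option.some.inj h3
      rw [h5] at h4
      exact h4.symm
    rw [h1, ev]
    push_cast
    ring
  have hp3 : ev p3 (zf r) = ev p (zf r) ^ 3 := by rw [p3, ev_mul, ev_mul]; ring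
  have hD : (0 : ℝ) < DD := by unfold DD; positivity
  rw [rn, ev_add, ev_mul, ev_smul, ev_sub, ev_smul, ev_mul, hp3]
  unfold rhoin Sin
  rw [ht]
  have e := r_eq hr
  have e1 : ev [DD] (zf r) = DD := by simp [ev]
  have e2 : ev [1, -1] (zf r) = 1 - zf r := by simp only [ev]; push_cast; ring
  rw [e1, e2]
  have e3 : zf r * ev mm (zf r) / (4 * ev p (zf r) ^ 3) / r =
      (1 - zf r) * ev mm (zf r) / (35 * ev p (zf r) ^ 3) := by
    rw [div_div, div_eq_div_iff (by positivity) (by positivity)]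
    have : zf r * 35 = 4 * (r * (1 - zf r)) := by rw [e]; ring
    linear_combination (ev mm (zf r) * ev p (zf r) ^ 3) * this
  rw [e3]
  push_cast
  field_simp

theorem rho_bd {e f : ℤ} (hf : 0 < f) (hr : 0 < r) (h48 : r ≤ 48)
    (ha : 0 ≤ ev (bd 1 e f) (zf r)) (hb : 0 ≤ ev (bd (-1) e f) (zf r)) :
    |rhoin r| ≤ e / f := by
  have hp := p_pos (zf_pos hr).le (zf_le48 hr h48)
  have hp3 : ev p3 (zf r) = ev p (zf r) ^ 3 := by rw [p3, ev_mul, ev_mul]; ring
  have hD : (0 : ℝ) < DD := by unfold DD; positivity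
  have hf' : (0 : ℝ) < f := by exact_mod_cast hf
  rw [bd, ev_sub, ev_smul, ev_smul, rhoin_eq hr h48] at ha hb
  push_cast at ha hb
  have hQ : 0 < 35 * (DD : ℝ) * ev p3 (zf r) := by rw [hp3]; positivity
  rw [abs_le]
  constructor
  · rw [← neg_div, div_le_iff₀ hf']
    have : 0 ≤ (e + f * rhoin r) * (35 * (DD : ℝ) * ev p3 (zf r)) := by linarith
    have := nonneg_of_mul_nonneg_left this hQ
    linarith
  · rw [le_div_iff₀ hf']
    have : 0 ≤ (e - f * rhoin r) * (35 * (DD : ℝ) * ev p3 (zf r)) := by linarith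
    have := nonneg_of_mul_nonneg_left this hQ
    linarith

theorem rho_bdz {e f : ℤ} (hf : 0 < f) (hr : 0 < r) (h48 : r ≤ 48)
    (ha : 0 ≤ ev (bdz 1 e f) (zf r)) (hb : 0 ≤ ev (bdz (-1) e f) (zf r)) :
    |rhoin r| ≤ e / f * zf r := by
  have hp := p_pos (zf_pos hr).le (zf_le48 hr h48)
  have hp3 : ev p3 (zf r) = ev p (zf r) ^ 3 := by rw [p3, ev_mul, ev_mul]; ring
  have hD : (0 : ℝ) < DD := by unfold DD; positivity
  have hf' : (0 : ℝ) < f := by exact_mod_cast hf
  rw [bdz, ev_sub, ev_smul, ev_smul, rhoin_eq hr h48, ev] at ha hb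
  push_cast at ha hb
  have hQ : 0 < 35 * (DD : ℝ) * ev p3 (zf r) := by rw [hp3]; positivity
  rw [abs_le]
  constructor
  · have : 0 ≤ (e * zf r + f * rhoin r) * (35 * (DD : ℝ) * ev p3 (zf r)) := by linarith
    have := nonneg_of_mul_nonneg_left this hQ
    have h2 : -(e / f * zf r) = (-(e * zf r)) / f := by ring
    rw [h2, div_le_iff₀ hf']
    linarith
  · have : 0 ≤ (e * zf r - f * rhoin r) * (35 * (DD : ℝ) * ev p3 (zf r)) := by linarith
    have := nonneg_of_mul_nonneg_left this hQ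
    have h2 : (e / f * zf r : ℝ) = (e * zf r) / f := by ring
    rw [h2, le_div_iff₀ hf']
    linarith

end Pool.Agent.H97.TR
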