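import Pool.Agent.H97.TR.Inner

/-!
# Trial function of the Hartree ground state: outer part
-/

set_option autoImplicit false

namespace Pool.Agent.H97.TR

open Pool.Agent.H99.PC Set MeasureTheory

/-- `m` -/
noncomputable def mR : ℝ := 207507 / 1000000

/-- `y (48)` -/
noncomputable def y0 : ℝ := 789 / 250

/-- `y = sqrt (m r)` -/
noncomputable def yf (r : ℝ) : ℝ := √(mR * r)

theorem mR_pos : 0 < mR := by unfold mR; norm_num

theorem y0_pos : 0 < y0 := by unfold y0; norm_num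

theorem yf_pos {r : ℝ} (hr : 0 < r) : 0 < yf r := Real.sqrt_pos.mpr (mul_pos mR_pos hr)

theorem yf_sq {r : ℝ} (hr : 0 < r) : yf r ^ 2 = mR * r :=
  Real.sq_sqrt (mul_pos mR_pos hr).le

theorem yf_48 : yf 48 = y0 := by
  unfold yf
  have : mR * 48 = y0 ^ 2 := by unfold mR y0; norm_num
  rw [this]
  exact Real.sqrt_sq y0_pos.le

theorem yf_mono {r r' : ℝ} (h : r ≤ r') : yf r ≤ yf r' :=
  Real.sqrt_le_sqrt (mul_le_mul_of_nonneg_left h mR_pos.le)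

theorem yf_ge {r : ℝ} (h : 48 ≤ r) : y0 ≤ yf r := by
  rw [← yf_48]
  exact yf_mono h

theorem der_yf {r : ℝ} (hr : 0 < r) : HasDerivAt yf (yf r / (2 * r)) r := by
  have h1 : HasDerivAt (fun r : ℝ => mR * r) (mR * 1) r := (hasDerivAt_id' r).const_mul mR
  have h2 := h1.sqrt (mul_pos mR_pos hr).ne'
  unfold yf
  refine h2.congr_deriv ?_
  have h3 := yf_sq hr
  have h4 := yf_pos hr
  unfold yf at h3 h4
  rw [div_eq_div_iff (by positivity) (by positivity)]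
  nlinarith

/-- `L` as a function of `y` -/
noncomputable def ell (D1 D2 w : ℝ) : ℝ :=
  w - 1 / 4 + 3 / 32 * w⁻¹ - 3 / 64 * w⁻¹ ^ 2 - D1 * w⁻¹ ^ 6 - D2 * w⁻¹ ^ 8

/-- `L_x` as a function of `y` -/
noncomputable def ellx (D1 D2 w : ℝ) : ℝ :=
  w / 2 - 3 / 64 * w⁻¹ + 3 / 64 * w⁻¹ ^ 2 + 3 * D1 * w⁻¹ ^ 6 + 4 * D2 * w⁻¹ ^ 8

/-- `L_xx` as a function of `y` -/
noncomputable def ellxx (D1 D2 w : ℝ) : ℝ :=
  w / 4 + 3 / 128 * w⁻¹ - 3 / 64 * w⁻¹ ^ 2 - 9 * D1 * w⁻¹ ^ 6 - 16 * D2 * w⁻¹ ^ 8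

/-- antiderivative of `2 L / y` -/
noncomputable def fell (D1 D2 w : ℝ) : ℝ :=
  2 * w - 1 / 2 * Real.log w - 3 / 16 * w⁻¹ + 3 / 64 * w⁻¹ ^ 2 + D1 / 3 * w⁻¹ ^ 6 +
    D2 / 4 * w⁻¹ ^ 8

section der

variable (D1 D2 : ℝ) {w : ℝ}

theorem der_inv_pow (hw : 0 < w) (k : ℕ) :
    HasDerivAt (fun w : ℝ => w⁻¹ ^ (k + 1)) (-((k + 1 : ℝ) * w⁻¹ ^ (k + 1) / w)) w := by
  have h := (hasDerivAt_inv hw.ne').pow (k + 1)
  have e : (fun w : ℝ => w⁻¹ ^ (k + 1)) = (fun y : ℝ => y⁻¹) ^ (k + 1) := rfl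
  rw [e]
  refine h.congr_deriv ?_
  rw [Nat.add_sub_cancel, div_eq_mul_inv, pow_succ w⁻¹ k, ← inv_pow]
  push_cast
  ring

theorem der_ell (hw : 0 < w) : HasDerivAt (ell D1 D2) (2 * ellx D1 D2 w / w) w := by
  have h1 := der_inv_pow hw 0
  have h2 := der_inv_pow hw 1
  have h6 := der_inv_pow hw 5
  have h8 := der_inv_pow hw 7
  have h := (((((hasDerivAt_id' w).sub_const (1 / 4)).add (h1.const_mul (3 / 32))).sub
    (h2.const_mul (3 / 64))).sub (h6.const_mul D1)).sub (h8.const_mul D2)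
  have e : ell D1 D2 = fun w => w - 1 / 4 + 3 / 32 * w⁻¹ ^ (0 + 1) - 3 / 64 * w⁻¹ ^ (1 + 1) -
      D1 * w⁻¹ ^ (5 + 1) - D2 * w⁻¹ ^ (7 + 1) := by
    funext w
    simp [ell]
  rw [e]
  refine h.congr_deriv ?_
  unfold ellx
  push_cast
  field_simp
  ring

theorem der_ellx (hw : 0 < w) : HasDerivAt (ellx D1 D2) (2 * ellxx D1 D2 w / w) w := by
  have h1 := der_inv_pow hw 0
  have h2 := der_inv_pow hw 1
  have h6 := der_inv_pow hw 5
  have h8 := der_inv_pow hw 7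
  have h := (((((hasDerivAt_id' w).div_const 2).sub (h1.const_mul (3 / 64))).add
    (h2.const_mul (3 / 64))).add (h6.const_mul (3 * D1))).add (h8.const_mul (4 * D2))
  have e : ellx D1 D2 = fun w => w / 2 - 3 / 64 * w⁻¹ ^ (0 + 1) + 3 / 64 * w⁻¹ ^ (1 + 1) +
      3 * D1 * w⁻¹ ^ (5 + 1) + 4 * D2 * w⁻¹ ^ (7 + 1) := by
    funext w
    simp [ellx]
  rw [e]
  refine h.congr_deriv ?_
  unfold ellxx
  push_cast
  field_simp
  ring

theorem der_fell (hw : 0 < w) : HasDerivAt (fell D1 D2) (2 * ell D1 D2 w / w) w := by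
  have h1 := der_inv_pow hw 0
  have h2 := der_inv_pow hw 1
  have h6 := der_inv_pow hw 5
  have h8 := der_inv_pow hw 7
  have h := ((((((hasDerivAt_id' w).const_mul 2).sub
    ((Real.hasDerivAt_log hw.ne').const_mul (1 / 2))).sub (h1.const_mul (3 / 16))).add
    (h2.const_mul (3 / 64))).add (h6.const_mul (D1 / 3))).add (h8.const_mul (D2 / 4))
  have e : fell D1 D2 = fun w => 2 * w - 1 / 2 * Real.log w - 3 / 16 * w⁻¹ ^ (0 + 1) +
      3 / 64 * w⁻¹ ^ (1 + 1) + D1 / 3 * w⁻¹ ^ (5 + 1) + D2 / 4 * w⁻¹ ^ (7 + 1) := by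
    funext w
    simp [fell]
  rw [e]
  refine h.congr_deriv ?_
  unfold ell
  push_cast
  field_simp
  ring

end der

/-- `e1 + e2` -/
noncomputable def s1c : ℝ := y0 - 1 / 4 + 3 / 32 * y0⁻¹ - 3 / 64 * y0⁻¹ ^ 2 - Lin 48

/-- `3 e1 + 4 e2` -/
noncomputable def s2c : ℝ := Lxin 48 - (y0 / 2 - 3 / 64 * y0⁻¹ + 3 / 64 * y0⁻¹ ^ 2)

noncomputable def D1c : ℝ := (4 * s1c - s2c) * y0 ^ 6

noncomputable def D2c : ℝ := (s2c - 3 * s1c) * y0 ^ 8

theorem match_ell : ell D1c D2c y0 = Lin 48 := by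
  unfold ell D1c D2c
  have h := y0_pos.ne'
  have e6 : y0 ^ 6 * y0⁻¹ ^ 6 = 1 := by rw [← mul_pow, mul_inv_cancel₀ h, one_pow]
  have e8 : y0 ^ 8 * y0⁻¹ ^ 8 = 1 := by rw [← mul_pow, mul_inv_cancel₀ h, one_pow]
  have : y0 - 1 / 4 + 3 / 32 * y0⁻¹ - 3 / 64 * y0⁻¹ ^ 2 - (4 * s1c - s2c) * y0 ^ 6 * y0⁻¹ ^ 6 -
      (s2c - 3 * s1c) * y0 ^ 8 * y0⁻¹ ^ 8 = y0 - 1 / 4 + 3 / 32 * y0⁻¹ - 3 / 64 * y0⁻¹ ^ 2 -
      (4 * s1c - s2c) * (y0 ^ 6 * y0⁻¹ ^ 6) - (s2c - 3 * s1c) * (y0 ^ 8 * y0⁻¹ ^ 8) := by ring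
  rw [this, e6, e8]
  unfold s1c
  ring

theorem match_ellx : ellx D1c D2c y0 = Lxin 48 := by
  unfold ellx D1c D2c
  have h := y0_pos.ne'
  have e6 : y0 ^ 6 * y0⁻¹ ^ 6 = 1 := by rw [← mul_pow, mul_inv_cancel₀ h, one_pow]
  have e8 : y0 ^ 8 * y0⁻¹ ^ 8 = 1 := by rw [← mul_pow, mul_inv_cancel₀ h, one_pow]
  have : y0 / 2 - 3 / 64 * y0⁻¹ + 3 / 64 * y0⁻¹ ^ 2 +
      3 * ((4 * s1c - s2c) * y0 ^ 6) * y0⁻¹ ^ 6 + 4 * ((s2c - 3 * s1c) * y0 ^ 8) * y0⁻¹ ^ 8 =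
      y0 / 2 - 3 / 64 * y0⁻¹ + 3 / 64 * y0⁻¹ ^ 2 +
      3 * (4 * s1c - s2c) * (y0 ^ 6 * y0⁻¹ ^ 6) +
      4 * (s2c - 3 * s1c) * (y0 ^ 8 * y0⁻¹ ^ 8) := by ring
  rw [this, e6, e8]
  unfold s2c
  ring

/-! ### numerical values at 48 -/

theorem pt {l : List ℤ} (h : chk l 192 192 227 = true) : 0 ≤ ev l (zf 48) := by
  rw [zf_48]
  exact chk_sound (by norm_num) h (by norm_num) (by norm_num)

theorem p48 : 17419311 / 1000 ≤ ev p (zf 48) ∧ ev p (zf 48) ≤ 17419312 / 1000 := by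
  have h1 := pt (l := sub (smul 1000 p) [17419311]) (by decide +kernel)
  have h2 := pt (l := sub [17419312] (smul 1000 p)) (by decide +kernel)
  rw [ev_sub, ev_smul] at h1 h2
  simp only [ev] at h1 h2
  push_cast at h1 h2
  constructor <;> linarith

theorem L48 : 2931189778122 / 10 ^ 12 ≤ Lin 48 ∧ Lin 48 ≤ 2931189778123 / 10 ^ 12 := by
  have h0 := p48
  have hp : 0 < ev p (zf 48) := by linarith [h0.1]
  have h1 := pt (l := sub (smul (10 ^ 12) nl) (smul (2 * 2931189778122) p)) (by decide +kernel)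
  have h2 := pt (l := sub (smul (2 * 2931189778123) p) (smul (10 ^ 12) nl)) (by decide +kernel)
  rw [ev_sub, ev_smul, ev_smul] at h1 h2
  push_cast at h1 h2
  unfold Lin
  constructor
  · rw [div_le_div_iff₀ (by positivity) (by positivity)]
    linarith
  · rw [div_le_div_iff₀ (by positivity) (by positivity)]
    linarith

theorem Lx48 : 1569214364482 / 10 ^ 12 ≤ Lxin 48 ∧ Lxin 48 ≤ 1569214364483 / 10 ^ 12 := by
  have h0 := p48
  have hp : 0 < ev p (zf 48) := by linarith [h0.1]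
  have h1 := pt (l := sub (smul (10 ^ 12) n1) (smul (2 * 1569214364482) (mul p p)))
    (by decide +kernel)
  have h2 := pt (l := sub (smul (2 * 1569214364483) (mul p p)) (smul (10 ^ 12) n1))
    (by decide +kernel)
  rw [ev_sub, ev_smul, ev_smul, ev_mul] at h1 h2
  push_cast at h1 h2
  unfold Lxin
  constructor
  · rw [div_le_div_iff₀ (by positivity) (by positivity)]
    nlinarith
  · rw [div_le_div_iff₀ (by positivity) (by positivity)]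
    nlinarith

theorem S48 : 1206723582 / 10 ^ 9 ≤ Sin 48 ∧ Sin 48 ≤ 1206723583 / 10 ^ 9 := by
  have h1 := pt (l := sub (smul (10 ^ 9) sl) [1206723582 * DD]) (by decide +kernel)
  have h2 := pt (l := sub [1206723583 * DD] (smul (10 ^ 9) sl)) (by decide +kernel)
  have hD : (0 : ℝ) < DD := by unfold DD; positivity
  rw [ev_sub, ev_smul] at h1 h2
  simp only [ev] at h1 h2
  push_cast at h1 h2
  unfold Sin
  constructor
  · rw [div_le_div_iff₀ (by positivity) hD]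
    linarith
  · rw [div_le_div_iff₀ hD (by positivity)]
    linarith

theorem A48 : 8737 / 10 ^ 8 ≤ Ain 48 ∧ Ain 48 ≤ 87371 / 10 ^ 9 := by
  have h0 := p48
  unfold Ain
  rw [zf_48] at *
  constructor
  · have h1 : (2498261861 / 10 ^ 10 * 48 ^ 2 * (1 - 192 / 227) ^ 5 *
        ((17419311 / 1000) / 10 ^ 7) : ℝ) ≤ 2498261861 / 10 ^ 10 * 48 ^ 2 * (1 - 192 / 227) ^ 5 *
        (ev p (192 / 227) / 10 ^ 7) := by
      have := h0.1
      gcongr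
    refine le_trans ?_ h1
    norm_num
  · have h1 : 2498261861 / 10 ^ 10 * 48 ^ 2 * (1 - 192 / 227) ^ 5 *
        (ev p (192 / 227) / 10 ^ 7) ≤ (2498261861 / 10 ^ 10 * 48 ^ 2 * (1 - 192 / 227) ^ 5 *
        ((17419312 / 1000) / 10 ^ 7) : ℝ) := by
      have := h0.2
      gcongr
    refine le_trans h1 ?_
    norm_num

theorem D1_bd : -2.098180 ≤ D1c ∧ D1c ≤ -2.098179 := by
  have h1 := L48
  have h2 := Lx48
  unfold D1c s1c s2c y0
  constructor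
  · norm_num at h1 h2 ⊢
    linarith
  · norm_num at h1 h2 ⊢
    linarith

theorem D2_bd : 19.02242 ≤ D2c ∧ D2c ≤ 19.022421 := by
  have h1 := L48
  have h2 := Lx48
  unfold D2c s1c s2c y0
  constructor
  · norm_num at h1 h2 ⊢
    linarith
  · norm_num at h1 h2 ⊢
    linarith

end Pool.Agent.H97.TR
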