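import Pool.Agent.H97.TR.Outer

/-!
# Trial function of the Hartree ground state: bounds in the outer part
-/

set_option autoImplicit false

namespace Pool.Agent.H97.TR

open Pool.Agent.H99.PC Set MeasureTheory

/-- `L` -/
noncomputable def Lout (r : ℝ) : ℝ := ell D1c D2c (yf r)

/-- `r L'` -/
noncomputable def Lxout (r : ℝ) : ℝ := ellx D1c D2c (yf r)

/-- `(r d/dr)^2 L` -/
noncomputable def Lxxout (r : ℝ) : ℝ := ellxx D1c D2c (yf r)

/-- the potential -/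
noncomputable def phout (r : ℝ) : ℝ := (Lxout r - Lout r ^ 2 - Lout r) / r ^ 2

/-- `A` -/
noncomputable def Aout (r : ℝ) : ℝ :=
  Ain 48 * Real.exp (-(2 * (fell D1c D2c (yf r) - fell D1c D2c y0)))

/-- `S` -/
noncomputable def Sout (r : ℝ) : ℝ := Sin 48 + ∫ t in (48 : ℝ)..r, Aout t

/-- `(2 Y - Y_x) / r` -/
noncomputable def Qout (r : ℝ) : ℝ := (2 * (Lout r ^ 2 + Lout r - Lxout r) -
  (2 * Lout r * Lxout r + Lxout r - Lxxout r)) / r

/-- `rho` -/
noncomputable def rhoout (r : ℝ) : ℝ := 1 - Sout r + Qout r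

variable {r : ℝ}

theorem derLout (hr : 0 < r) : HasDerivAt Lout (Lxout r / r) r := by
  have hw := yf_pos hr
  have h := (der_ell D1c D2c hw).comp r (der_yf hr)
  have e : Lout = ell D1c D2c ∘ yf := rfl
  rw [e]
  refine h.congr_deriv ?_
  unfold Lxout
  field_simp

theorem derLxout (hr : 0 < r) : HasDerivAt Lxout (Lxxout r / r) r := by
  have hw := yf_pos hr
  have h := (der_ellx D1c D2c hw).comp r (der_yf hr)
  have e : Lxout = ellx D1c D2c ∘ yf := rfl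
  rw [e]
  refine h.congr_deriv ?_
  unfold Lxxout
  field_simp

theorem derAout (hr : 0 < r) : HasDerivAt Aout (-(2 * Lout r / r * Aout r)) r := by
  have hw := yf_pos hr
  have h := (der_fell D1c D2c hw).comp r (der_yf hr)
  have h2 := ((((h.sub_const (fell D1c D2c y0)).const_mul 2).neg).exp).const_mul (Ain 48)
  have e : Aout = fun r => Ain 48 * Real.exp (-(2 * ((fell D1c D2c ∘ yf) r - fell D1c D2c y0))) :=
    rfl
  rw [e]
  refine h2.congr_deriv ?_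
  unfold Lout
  simp only [Function.comp_apply, Pi.neg_apply]
  field_simp

theorem derphout (hr : 0 < r) : HasDerivAt phout ((rhoout r - 1 + Sout r) / r ^ 2) r := by
  have h1 := derLout hr
  have h2 := derLxout hr
  have h := ((h2.sub (h1.pow 2)).sub h1).div ((hasDerivAt_id' r).pow 2) (pow_ne_zero 2 hr.ne')
  refine HasDerivAt.congr_deriv (f := fun r => (Lxout r - Lout r ^ 2 - Lout r) / r ^ 2) h ?_
  unfold rhoout Qout
  simp only [Pi.pow_apply, Pi.sub_apply]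
  push_cast
  field_simp
  ring

theorem Aout_pos (r : ℝ) : 0 < Aout r := by
  have := Ain_pos (r := 48) (by norm_num) le_rfl
  unfold Aout
  positivity

theorem contAout : ContinuousOn Aout (Ioi 0) := fun _ hr => (derAout hr).continuousAt.continuousWithinAt

theorem derSout (hr : 0 < r) : HasDerivAt Sout (Aout r) r := by
  have hint : IntervalIntegrable Aout volume 48 r := by
    refine (contAout.mono ?_).intervalIntegrable
    intro t ht
    rcases le_total 48 r with h | h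
    · rw [uIcc_of_le h] at ht
      exact lt_of_lt_of_le (by norm_num) ht.1
    · rw [uIcc_of_ge h] at ht
      exact lt_of_lt_of_le hr ht.1
  have hmeas : StronglyMeasurableAtFilter Aout (nhds r) :=
    contAout.stronglyMeasurableAtFilter isOpen_Ioi r hr
  have h := intervalIntegral.integral_hasDerivAt_right hint hmeas (derAout hr).continuousAt
  exact h.const_add (Sin 48)

theorem Aout_48 : Aout 48 = Ain 48 := by
  unfold Aout
  rw [yf_48]
  simp

theorem Sout_48 : Sout 48 = Sin 48 := by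
  unfold Sout
  simp

theorem Lout_48 : Lout 48 = Lin 48 := by
  unfold Lout
  rw [yf_48, match_ell]

theorem Lxout_48 : Lxout 48 = Lxin 48 := by
  unfold Lxout
  rw [yf_48, match_ellx]

theorem phout_48 : phout 48 = phin 48 := by
  have h := phin_eq (r := 48) (by norm_num) le_rfl
  unfold phout
  rw [Lout_48, Lxout_48, ← h]
  field_simp

/-! ### inequalities in `v = 1/y` -/

theorem v_bd {w : ℝ} (hw : y0 ≤ w) : 0 < w⁻¹ ∧ w⁻¹ ≤ 250 / 789 := by
  have h0 := y0_pos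
  have hw0 : 0 < w := lt_of_lt_of_le h0 hw
  refine ⟨inv_pos.mpr hw0, ?_⟩
  have : (250 / 789 : ℝ) = y0⁻¹ := by unfold y0; norm_num
  rw [this]
  exact inv_anti₀ h0 hw

theorem v8_bd {v : ℝ} (h0 : 0 < v) (h1 : v ≤ 250 / 789) : v ^ 8 ≤ 1 / 3000 * v := by
  have h2 : v ^ 7 ≤ (250 / 789) ^ 7 := pow_le_pow_left₀ h0.le h1 7
  have h3 : ((250 : ℝ) / 789) ^ 7 ≤ 1 / 3000 := by norm_num
  have h4 : v ^ 8 = v ^ 7 * v := by ring
  rw [h4]
  exact mul_le_mul_of_nonneg_right (h2.trans h3) h0.le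

theorem ell_ge {w : ℝ} (hw : y0 ≤ w) : w - 253 / 1000 ≤ ell D1c D2c w := by
  obtain ⟨h0, h1⟩ := v_bd hw
  have hD1 := D1_bd
  have hD2 := D2_bd
  have h8 := v8_bd h0 h1
  unfold ell
  have e6 : 0 ≤ w⁻¹ ^ 6 := by positivity
  have e8 : 0 ≤ w⁻¹ ^ 8 := by positivity
  have a1 : 0 ≤ -D1c * w⁻¹ ^ 6 := mul_nonneg (by linarith [hD1.2]) e6
  have a2 : D2c * w⁻¹ ^ 8 ≤ 22 / 10000 := by
    have b1 : w⁻¹ ^ 8 ≤ 1 / 3000 * (250 / 789) := h8.trans (by gcongr)
    have b2 : D2c * w⁻¹ ^ 8 ≤ 20 * (1 / 3000 * (250 / 789)) :=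
      mul_le_mul (by linarith [hD2.2]) b1 e8 (by norm_num)
    exact b2.trans (by norm_num)
  have a3 : 3 / 64 * w⁻¹ ^ 2 ≤ 3 / 32 * w⁻¹ := by nlinarith
  linarith

theorem ellx_ge {w : ℝ} (hw : y0 ≤ w) : 1 ≤ ellx D1c D2c w := by
  obtain ⟨h0, h1⟩ := v_bd hw
  have hD1 := D1_bd
  have hD2 := D2_bd
  have hy : y0 = 789 / 250 := rfl
  unfold ellx
  have e6 : w⁻¹ ^ 6 ≤ (250 / 789) ^ 6 := pow_le_pow_left₀ h0.le h1 6
  have e6' : 0 ≤ w⁻¹ ^ 6 := by positivity
  have e8 : 0 ≤ D2c * w⁻¹ ^ 8 := mul_nonneg (by linarith [hD2.1]) (by positivity)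
  have a1 : -(3 * D1c * w⁻¹ ^ 6) ≤ 1 / 10 := by
    have : -(3 * D1c * w⁻¹ ^ 6) = (3 * -D1c) * w⁻¹ ^ 6 := by ring
    rw [this]
    have b2 : (3 * -D1c) * w⁻¹ ^ 6 ≤ (3 * 3) * (250 / 789) ^ 6 :=
      mul_le_mul (by linarith [hD1.1]) e6 e6' (by norm_num)
    exact b2.trans (by norm_num)
  have a3 : 0 ≤ 3 / 64 * w⁻¹ ^ 2 := by positivity
  linarith

theorem ellx_le {w : ℝ} (hw : y0 ≤ w) : 2 * ellx D1c D2c w ≤ w := by
  obtain ⟨h0, h1⟩ := v_bd hw
  have hD1 := D1_bd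
  have hD2 := D2_bd
  have h8 := v8_bd h0 h1
  unfold ellx
  have e6 : 0 ≤ w⁻¹ ^ 6 := by positivity
  have e8 : 0 ≤ w⁻¹ ^ 8 := by positivity
  have a1 : D1c * w⁻¹ ^ 6 ≤ 0 := mul_nonpos_of_nonpos_of_nonneg (by linarith [hD1.2]) e6
  have a2 : D2c * w⁻¹ ^ 8 ≤ 192 / 10 * (1 / 3000 * w⁻¹) :=
    mul_le_mul (by linarith [hD2.2]) h8 e8 (by norm_num)
  have a3 : w⁻¹ ^ 2 ≤ 250 / 789 * w⁻¹ := by nlinarith
  nlinarith

/-- the bound for `g` -/
theorem g_le {w : ℝ} (hw : y0 ≤ w) :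
    2 * ellx D1c D2c w ≤ 14 / 100 * (2 * ell D1c D2c w - 1) ^ 2 := by
  have h1 := ellx_le hw
  have h2 := ell_ge hw
  have hy : y0 = 789 / 250 := rfl
  have h3 : 2 * w - 1506 / 1000 ≤ 2 * ell D1c D2c w - 1 := by linarith
  have h4 : 0 ≤ 2 * w - 1506 / 1000 := by rw [hy] at hw; linarith
  have h5 : (2 * w - 1506 / 1000) ^ 2 ≤ (2 * ell D1c D2c w - 1) ^ 2 := pow_le_pow_left₀ h4 h3 2
  have h6 : w ≤ 14 / 100 * (2 * w - 1506 / 1000) ^ 2 := by rw [hy] at hw; nlinarith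
  linarith

/-- the polynomial `G` -/
noncomputable def Gp (D1 D2 v : ℝ) : ℝ :=
  -189 / 1024 - 63 / 2048 * v + 9 / 1024 * v ^ 2 - 9 * D1 * v ^ 3 - 35 / 2 * D1 * v ^ 4 -
    (11 * D2 + 33 / 32 * D1) * v ^ 5 + (-27 * D2 + 9 / 16 * D1) * v ^ 6 - 39 / 32 * D2 * v ^ 7 +
    21 / 32 * D2 * v ^ 8 + 8 * D1 ^ 2 * v ^ 10 + 18 * D1 * D2 * v ^ 12 + 10 * D2 ^ 2 * v ^ 14

theorem Q_eq (D1 D2 : ℝ) {w : ℝ} (hw : 0 < w) :
    (2 * (ell D1 D2 w ^ 2 + ell D1 D2 w - ellx D1 D2 w) -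
      (2 * ell D1 D2 w * ellx D1 D2 w + ellx D1 D2 w - ellxx D1 D2 w)) * w⁻¹ ^ 2 =
      1 + w⁻¹ ^ 4 * Gp D1 D2 w⁻¹ := by
  unfold ell ellx ellxx Gp
  obtain ⟨v, hv⟩ : ∃ v, v = w⁻¹ := ⟨_, rfl⟩
  have hw' : w = v⁻¹ := by rw [hv, inv_inv]
  have hv0 : 0 < v := by rw [hv]; positivity
  rw [← hv, hw']
  field_simp
  ring

theorem Qout_eq (hr : 0 < r) : Qout r = mR + mR * ((yf r)⁻¹ ^ 4 * Gp D1c D2c (yf r)⁻¹) := by
  have hw := yf_pos hr
  have h := Q_eq D1c D2c hw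
  have h2 := yf_sq hr
  unfold Qout Lout Lxout Lxxout
  have h3 : (1 : ℝ) / r = mR * (yf r)⁻¹ ^ 2 := by
    rw [inv_pow, h2]
    have := mR_pos
    field_simp
  rw [div_eq_mul_one_div, h3, ← mul_assoc, mul_comm _ mR, mul_assoc, h]
  ring

def gl : List ℤ := [-3780000000000, -630000000000, 180000000000, 386736537600000, 751987712000000,
  -4241057216000000, -10542808396800000, -474799603200000, 255661324800000, 0, 721282549743616, 0,
  -14713329695145984, 0, 74107384352030720]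

theorem gl_eq (v : ℝ) : ev gl v = 20480000000000 * Gp (-209818 / 100000) (1902242 / 100000) v := by
  unfold Gp
  simp only [gl, ev]
  push_cast
  ring

theorem gl_up : chkL (smul (-1) (sub (smul 20 gl) [-20480000000000])) 789 [0, 50, 100, 150, 180, 200,
  250] = true := by decide +kernel

theorem gl_lo : chkL (add (smul 1000 gl) [20480000000000 * 418]) 789 [0, 50, 100, 150, 200, 250] =
  true := by decide +kernel

theorem Gp_num {v : ℝ} (h0 : 0 < v) (h1 : v ≤ 250 / 789) :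
    -418 / 1000 ≤ Gp (-209818 / 100000) (1902242 / 100000) v ∧
      Gp (-209818 / 100000) (1902242 / 100000) v ≤ -1 / 20 := by
  have a := chkL_nonneg (w := 789) (by norm_num) (by simp) gl_up (b := 250) (by simp) (x := v)
    (by push_cast; simpa using h0.le) (by push_cast; exact h1)
  have b := chkL_nonneg (w := 789) (by norm_num) (by simp) gl_lo (b := 250) (by simp) (x := v)
    (by push_cast; simpa using h0.le) (by push_cast; exact h1)
  rw [ev_smul, ev_sub, ev_smul, gl_eq] at a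
  rw [ev_add, ev_smul, gl_eq] at b
  simp only [ev] at a b
  push_cast at a b
  constructor <;> linarith

theorem Gp_err {v : ℝ} (h0 : 0 < v) (h1 : v ≤ 250 / 789) :
    |Gp D1c D2c v - Gp (-209818 / 100000) (1902242 / 100000) v| ≤ 1 / 1000 := by
  have hD1 := D1_bd
  have hD2 := D2_bd
  obtain ⟨a, ha⟩ : ∃ a, a = D1c + 209818 / 100000 := ⟨_, rfl⟩
  obtain ⟨b, hb⟩ : ∃ b, b = D2c - 1902242 / 100000 := ⟨_, rfl⟩
  have ha' : D1c = a - 209818 / 100000 := by rw [ha]; ring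
  have hb' : D2c = b + 1902242 / 100000 := by rw [hb]; ring
  have haa : |a| ≤ 1 / 1000000 := by
    rw [abs_le]
    constructor
    · rw [ha]; norm_num at hD1 ⊢; linarith [hD1.1]
    · rw [ha]; norm_num at hD1 ⊢; linarith [hD1.2]
  have hbb : |b| ≤ 1 / 1000000 := by
    rw [abs_le]
    constructor
    · rw [hb]; norm_num at hD2 ⊢; linarith [hD2.1]
    · rw [hb]; norm_num at hD2 ⊢; linarith [hD2.2]
  have hv1 : v ≤ 1 := h1.trans (by norm_num)
  have hpow : ∀ k : ℕ, 0 ≤ v ^ k ∧ v ^ k ≤ 1 := fun k =>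
    ⟨by positivity, pow_le_one₀ h0.le hv1⟩
  have e : Gp D1c D2c v - Gp (-209818 / 100000) (1902242 / 100000) v =
      a * (-(9 * v ^ 3) - 35 / 2 * v ^ 4 - 33 / 32 * v ^ 5 + 9 / 16 * v ^ 6 +
        8 * (a - 419636 / 100000) * v ^ 10 + 18 * (b + 1902242 / 100000) * v ^ 12) +
      b * (-(11 * v ^ 5) - 27 * v ^ 6 - 39 / 32 * v ^ 7 + 21 / 32 * v ^ 8 -
        18 * (209818 / 100000) * v ^ 12 + 10 * (b + 3804484 / 100000) * v ^ 14) := by
    rw [ha', hb']
    unfold Gp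
    ring
  have ha2 := abs_le.1 haa
  have hb2 := abs_le.1 hbb
  have k1 : |-(9 * v ^ 3) - 35 / 2 * v ^ 4 - 33 / 32 * v ^ 5 + 9 / 16 * v ^ 6 +
        8 * (a - 419636 / 100000) * v ^ 10 + 18 * (b + 1902242 / 100000) * v ^ 12| ≤ 500 := by
    have m1 : |8 * (a - 419636 / 100000) * v ^ 10| ≤ 40 := by
      rw [abs_mul, abs_of_nonneg (hpow 10).1]
      have : |8 * (a - 419636 / 100000)| ≤ 40 := by rw [abs_le]; constructor <;> linarith
      calc _ ≤ 40 * (1 : ℝ) := mul_le_mul this (hpow 10).2 (hpow 10).1 (by norm_num)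
        _ = 40 := by ring
    have m2 : |18 * (b + 1902242 / 100000) * v ^ 12| ≤ 400 := by
      rw [abs_mul, abs_of_nonneg (hpow 12).1]
      have : |18 * (b + 1902242 / 100000)| ≤ 400 := by rw [abs_le]; constructor <;> linarith
      calc _ ≤ 400 * (1 : ℝ) := mul_le_mul this (hpow 12).2 (hpow 12).1 (by norm_num)
        _ = 400 := by ring
    have m1' := abs_le.1 m1
    have m2' := abs_le.1 m2
    have := hpow 3
    have := hpow 4
    have := hpow 5
    have := hpow 6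
    rw [abs_le]
    constructor <;> linarith
  have k2 : |-(11 * v ^ 5) - 27 * v ^ 6 - 39 / 32 * v ^ 7 + 21 / 32 * v ^ 8 -
        18 * (209818 / 100000) * v ^ 12 + 10 * (b + 3804484 / 100000) * v ^ 14| ≤ 500 := by
    have m2 : |10 * (b + 3804484 / 100000) * v ^ 14| ≤ 400 := by
      rw [abs_mul, abs_of_nonneg (hpow 14).1]
      have : |10 * (b + 3804484 / 100000)| ≤ 400 := by rw [abs_le]; constructor <;> linarith
      calc _ ≤ 400 * (1 : ℝ) := mul_le_mul this (hpow 14).2 (hpow 14).1 (by norm_num)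
        _ = 400 := by ring
    have m2' := abs_le.1 m2
    have := hpow 5
    have := hpow 6
    have := hpow 7
    have := hpow 8
    have := hpow 12
    rw [abs_le]
    constructor <;> linarith
  rw [e]
  refine (abs_add_le _ _).trans ?_
  rw [abs_mul, abs_mul]
  have n1 := mul_le_mul haa k1 (abs_nonneg _) (by norm_num)
  have n2 := mul_le_mul hbb k2 (abs_nonneg _) (by norm_num)
  norm_num at n1 n2 ⊢
  linarith

theorem Gp_bd {v : ℝ} (h0 : 0 < v) (h1 : v ≤ 250 / 789) :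
    -42 / 100 ≤ Gp D1c D2c v ∧ Gp D1c D2c v ≤ 0 := by
  have a := Gp_num h0 h1
  have b := abs_le.1 (Gp_err h0 h1)
  constructor <;> linarith [a.1, a.2, b.1, b.2]

/-- the algebraic part of `rho` -/
theorem Qout_bd (hr : 48 ≤ r) : mR - 88 / 100000 * (48 / r) ^ 2 ≤ Qout r ∧ Qout r ≤ mR := by
  have hr0 : 0 < r := by linarith
  obtain ⟨h0, h1⟩ := v_bd (yf_ge hr)
  obtain ⟨g1, g2⟩ := Gp_bd h0 h1
  have hm := mR_pos
  have e : (48 / r) ^ 2 = y0 ^ 4 * (yf r)⁻¹ ^ 4 := by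
    have h2 := yf_sq hr0
    have h3 := yf_sq (r := 48) (by norm_num)
    rw [yf_48] at h3
    have : (yf r)⁻¹ ^ 4 = ((yf r ^ 2)⁻¹) ^ 2 := by
      rw [← inv_pow]; ring
    rw [this, h2]
    have h4 : y0 ^ 4 = (y0 ^ 2) ^ 2 := by ring
    rw [h4, h3]
    field_simp
  rw [Qout_eq hr0, e]
  have hv : 0 ≤ (yf r)⁻¹ ^ 4 := by positivity
  constructor
  · have h5 : (yf r)⁻¹ ^ 4 * (-42 / 100) ≤ (yf r)⁻¹ ^ 4 * Gp D1c D2c (yf r)⁻¹ :=
      mul_le_mul_of_nonneg_left g1 hv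
    have h6 : mR * (42 / 100) ≤ 88 / 100000 * y0 ^ 4 := by unfold mR y0; norm_num
    nlinarith
  · have h5 : (yf r)⁻¹ ^ 4 * Gp D1c D2c (yf r)⁻¹ ≤ 0 :=
      mul_nonpos_of_nonneg_of_nonpos hv g2
    nlinarith

end Pool.Agent.H97.TR
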